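import Pool.Agent.Q267.E8.Stm

set_option autoImplicit false

/-!
# The last algebraic step
-/

namespace Pool.Agent.Q267.E8

open Finset Pool.Agent.Q267.CDE Pool.Agent.Q267.MW

theorem fin_alg (p : ℕ) [Fact p.Prime] (s B x t : R p) (hB : IsUnit B) (ht : t * t = 1)
    (h : 2 * t * x * B = B * (t * s) + p) (hr : red p B = red p (t * s)) :
    (2 * x - s) * (2 * x) = p := by
  obtain ⟨b, hb⟩ := hB.exists_right_inv
  have h1 : 2 * x - s = p * (t * b) := by
    linear_combination (t * b) * h - (2 * x - s) * hb * t * t - (2 * x - s) * ht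
  have h2 : red p (2 * x) = red p s := by
    have e : 2 * x = s + p * (t * b) := by linear_combination h1
    rw [e, map_add, map_mul, red_nat, ZMod.natCast_self, zero_mul, add_zero]
  have h3 : (p : R p) * (t * b * (2 * x)) = p * 1 := by
    apply p_mul_eq
    rw [map_mul, h2, ← map_mul]
    have e : red p (t * b * s) = red p b * red p (t * s) := by
      rw [← map_mul]
      congr 1
      ring
    rw [e, ← hr, ← map_mul, mul_comm b B, hb]
  rw [h1]
  linear_combination h3

/-- the rational number `2x - p/(2x)` -/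
theorem isRed_val (p : ℕ) [hp : Fact p.Prime] (x : ℤ) (hx : ¬ (p : ℤ) ∣ 2 * x) (s : R p)
    (h : (2 * (x : R p) - s) * (2 * x) = p) : IsRed p (2 * (x : ℚ) - p / (2 * x)) s := by
  have hx0 : x ≠ 0 := by
    rintro rfl
    exact hx (by simp)
  have hxq : (x : ℚ) ≠ 0 := by exact_mod_cast hx0
  rcases le_or_gt 0 x with h0 | h0
  · obtain ⟨n, rfl⟩ := Int.eq_ofNat_of_zero_le h0
    refine ⟨4 * (n : ℤ) ^ 2 - p, 2 * n, ?_, ?_, ?_⟩
    · intro hd
      apply hx
      exact_mod_cast hd
    · push_cast at hxq ⊢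
      field_simp
      ring
    · push_cast at h ⊢
      linear_combination h
  · obtain ⟨n, hn⟩ := Int.eq_ofNat_of_zero_le (show 0 ≤ -x by omega)
    have hxn : x = -(n : ℤ) := by omega
    subst hxn
    refine ⟨-(4 * (n : ℤ) ^ 2 - p), 2 * n, ?_, ?_, ?_⟩
    · intro hd
      apply hx
      rw [show (2 : ℤ) * -(n : ℤ) = -((2 * n : ℕ) : ℤ) by push_cast; ring, Int.dvd_neg]
      exact_mod_cast hd
    · push_cast at hxq ⊢
      have : (n : ℚ) ≠ 0 := by
        intro h
        apply hxq
        rw [h, neg_zero]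
      field_simp
      ring
    · push_cast at h ⊢
      linear_combination -h

end Pool.Agent.Q267.E8
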