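import Pool.Agent.Q267.E8.Stm2

set_option autoImplicit false

/-!
# The polynomial `E` modulo `p²`
-/

namespace Pool.Agent.Q267.E8

open Finset Pool.Agent.Q267.CDE Pool.Agent.Q267.MW

theorem pm_prod (p k : ℕ) : ∃ b : R p, ∏ i ∈ range k, (2 * (i : R p) + 1 + p) =
    (∏ i ∈ range k, (2 * (i : R p) + 1)) + p * b ∧ ∏ i ∈ range k, (2 * (i : R p) + 1 - p) =
    (∏ i ∈ range k, (2 * (i : R p) + 1)) - p * b := by
  induction k with
  | zero => exact ⟨0, by simp, by simp⟩
  | succ k ih =>
    obtain ⟨b, h1, h2⟩ := ih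
    have hpp := p_sq p
    refine ⟨b * (2 * (k : R p) + 1) + ∏ i ∈ range k, (2 * (i : R p) + 1), ?_, ?_⟩
    · rw [prod_range_succ, prod_range_succ, h1]
      linear_combination b * hpp
    · rw [prod_range_succ, prod_range_succ, h2]
      linear_combination b * hpp

theorem prodP (m k : ℕ) (p : ℕ) (hpm : p = 2 * m + 1) : ((k.factorial : ℕ) : R p) *
    (((m + k).choose k : ℕ) : R p) * 2 ^ k = ∏ i ∈ range k, (2 * (i : R p) + 1 + p) := by
  induction k with
  | zero => simp
  | succ k ih =>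
    have h1 := Nat.add_one_mul_choose_eq (m + k) k
    have h1' := congrArg (Nat.cast : ℕ → R p) h1
    have hpR := congrArg (Nat.cast : ℕ → R p) hpm
    push_cast at h1' hpR
    rw [prod_range_succ, ← ih, Nat.factorial_succ, show m + (k + 1) = m + k + 1 by ring]
    push_cast
    linear_combination (-((k.factorial : ℕ) : R p) * 2 ^ k * 2) * h1' -
      ((k.factorial : ℕ) : R p) * (((m + k).choose k : ℕ) : R p) * 2 ^ k * hpR

theorem prodM (m k : ℕ) (p : ℕ) (hpm : p = 2 * m + 1) (hk : k ≤ m) : ((k.factorial : ℕ) : R p) *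
    ((m.choose k : ℕ) : R p) * (-2) ^ k = ∏ i ∈ range k, (2 * (i : R p) + 1 - p) := by
  induction k with
  | zero => simp
  | succ k ih =>
    have ih := ih (by omega)
    have h1 := Nat.choose_succ_right_eq m k
    have h1' := congrArg (Nat.cast : ℕ → R p) h1
    rw [Nat.cast_mul, Nat.cast_mul, Nat.cast_sub (by omega)] at h1'
    have hpR := congrArg (Nat.cast : ℕ → R p) hpm
    push_cast at h1' hpR
    rw [prod_range_succ, ← ih, Nat.factorial_succ]
    push_cast
    linear_combination (((k.factorial : ℕ) : R p) * (-2) ^ k * (-2)) * h1' +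
      ((k.factorial : ℕ) : R p) * ((m.choose k : ℕ) : R p) * (-2) ^ k * hpR

theorem prodC (k p : ℕ) : ((k.factorial : ℕ) : R p) * ((k.centralBinom : ℕ) : R p) =
    2 ^ k * ∏ i ∈ range k, (2 * (i : R p) + 1) := by
  induction k with
  | zero => simp
  | succ k ih =>
    have h1 := Nat.succ_mul_centralBinom_succ k
    have h1' := congrArg (Nat.cast : ℕ → R p) h1
    push_cast at h1'
    rw [prod_range_succ, Nat.factorial_succ]
    push_cast
    linear_combination ((k.factorial : ℕ) : R p) * h1' + 2 * (2 * (k : R p) + 1) * ih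

theorem ek_coeff (p m k : ℕ) [Fact p.Prime] (hpm : p = 2 * m + 1) (hk : k ≤ m) :
    2 * ((k.centralBinom : ℕ) : R p) = 4 ^ k * (((m + k).choose k : ℕ) : R p) +
      (-4) ^ k * ((m.choose k : ℕ) : R p) := by
  obtain ⟨b, h1, h2⟩ := pm_prod p k
  have hu : IsUnit (((k.factorial : ℕ) : R p)) := by
    apply isUnit_of_red
    rw [red_nat]
    exact fact_ne p k (by omega)
  apply hu.mul_left_cancel
  have e1 := prodP m k p hpm
  have e2 := prodM m k p hpm hk
  have e3 := prodC k p
  rw [h1] at e1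
  rw [h2] at e2
  have e4 : (4 : R p) ^ k = 2 ^ k * 2 ^ k := by rw [← mul_pow]; norm_num
  have e5 : (-4 : R p) ^ k = 2 ^ k * (-2) ^ k := by rw [← mul_pow]; norm_num
  rw [e4, e5]
  linear_combination 2 * e3 - 2 ^ k * e1 - 2 ^ k * e2

theorem ek : S_EK := by
  intro p m _ S _ _ z w hpm hz
  unfold Ef Ff Kf
  rw [mul_sum, ← sum_add_distrib]
  refine sum_congr rfl fun k hk => ?_
  have hk1 : k ≤ m := Nat.lt_succ_iff.1 (Finset.mem_range.1 hk)
  have h := congrArg (algebraMap (R p) S) (ek_coeff p m k hpm hk1)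
  simp only [map_mul, map_add, map_pow, map_neg, map_ofNat, map_natCast] at h
  have e1 : z ^ k = (-1) ^ k * (4 ^ k * w ^ k) := by
    rw [← hz, ← mul_pow, ← mul_pow]
    congr 1
    ring
  have e2 : (-4 : S) ^ k = (-1) ^ k * 4 ^ k := by rw [← mul_pow]; norm_num
  have e3 : ((-1 : S)) ^ k * (-1) ^ k = 1 := by rw [← mul_pow]; norm_num
  rw [e1]
  rw [e2] at h
  linear_combination ((m.choose k : ℕ) : S) * w ^ k * h -
    ((m.choose k : ℕ) : S) * (((m + k).choose k : ℕ) : S) * 4 ^ k * w ^ k * e3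

end Pool.Agent.Q267.E8
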