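import Pool.Agent.Q267.E8.Stm2

set_option autoImplicit false

/-!
# Two polynomial identities
-/

namespace Pool.Agent.Q267.E8

open Finset Pool.Agent.Q267.CDE Pool.Agent.Q267.MW

section

variable {S : Type} [CommRing S]

theorem k1L (m : ℕ) (z : S) :
    (((1 : Polynomial S) + Polynomial.C z * Polynomial.X) ^ m * (1 + Polynomial.X) ^ m).coeff m = Kf m z := by
  have h1 : ((1 : Polynomial S) + Polynomial.C z * Polynomial.X) ^ m =
      ((1 + Polynomial.X) ^ m : Polynomial S).comp (Polynomial.C z * Polynomial.X) := by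
    simp
  rw [h1, Polynomial.coeff_mul]
  refine (Finset.Nat.sum_antidiagonal_eq_sum_range_succ (M := S)
    (fun i j : ℕ => (((1 + Polynomial.X) ^ m : Polynomial S).comp (Polynomial.C z * Polynomial.X)).coeff i *
      ((1 + Polynomial.X : Polynomial S) ^ m).coeff j) m).trans ?_
  unfold Kf
  refine Finset.sum_congr rfl fun k hk => ?_
  have hk1 : k ≤ m := Nat.lt_succ_iff.1 (Finset.mem_range.1 hk)
  rw [Polynomial.comp_C_mul_X_coeff, Polynomial.coeff_one_add_X_pow, Polynomial.coeff_one_add_X_pow,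
    Nat.choose_symm hk1]
  ring

theorem k1R (m : ℕ) (z : S) :
    (((1 : Polynomial S) + Polynomial.C z * Polynomial.X) ^ m * (1 + Polynomial.X) ^ m).coeff m =
      ∑ k ∈ range (m + 1), ((m.choose k : ℕ) : S) * (((m + k).choose k : ℕ) : S) * z ^ k * (1 - z) ^ (m - k) := by
  have h1 : (1 : Polynomial S) + Polynomial.C z * Polynomial.X =
      Polynomial.C z * (1 + Polynomial.X) + Polynomial.C (1 - z) := by
    rw [map_sub, map_one]
    ring
  rw [h1, add_pow, sum_mul, Polynomial.finsetSum_coeff]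
  refine Finset.sum_congr rfl fun k hk => ?_
  have hk1 : k ≤ m := Nat.lt_succ_iff.1 (Finset.mem_range.1 hk)
  have h2 : (Polynomial.C z * (1 + Polynomial.X)) ^ k * Polynomial.C (1 - z) ^ (m - k) *
      ((m.choose k : ℕ) : Polynomial S) * (1 + Polynomial.X) ^ m =
      Polynomial.C (z ^ k * (1 - z) ^ (m - k) * ((m.choose k : ℕ) : S)) * (1 + Polynomial.X) ^ (m + k) := by
    rw [Polynomial.C_mul, Polynomial.C_mul, Polynomial.C_pow, Polynomial.C_pow, mul_pow, pow_add, map_natCast]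
    ring
  rw [h2, Polynomial.coeff_C_mul, Polynomial.coeff_one_add_X_pow, Nat.choose_symm_add]
  ring

end

theorem k1 : S_K1 := by
  intro S _ m z v hv
  rw [← k1L, k1R]
  unfold Ff
  rw [mul_sum]
  refine sum_congr rfl fun k hk => ?_
  have hk1 : k ≤ m := Nat.lt_succ_iff.1 (Finset.mem_range.1 hk)
  obtain ⟨l, rfl⟩ := Nat.exists_eq_add_of_le hk1
  rw [Nat.add_sub_cancel_left]
  have h4 : (1 - z) ^ (k + l) * v ^ k = (1 - z) ^ l := by
    rw [pow_add, mul_right_comm, ← mul_pow, hv, one_pow, one_mul]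
  have h5 : (-1 : S) ^ k * (-(z * v)) ^ k = z ^ k * v ^ k := by
    rw [← mul_pow, ← mul_pow]
    congr 1
    ring
  have h6 : (1 - z) ^ (k + l) * ((-1) ^ k * (((k + l).choose k : ℕ) : S) * (((k + l + k).choose k : ℕ) : S) *
      (-(z * v)) ^ k) = (((k + l).choose k : ℕ) : S) * (((k + l + k).choose k : ℕ) : S) *
      ((1 - z) ^ (k + l) * ((-1) ^ k * (-(z * v)) ^ k)) := by ring
  rw [h6, h5, ← h4]
  ring

section

variable {S : Type} [CommRing S]

theorem evL (m : ℕ) (w : S) :
    ((Polynomial.C w * (Polynomial.X + 1) ^ 2 + Polynomial.X) ^ m).coeff m = Ef m w := by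
  unfold Ef
  rw [add_pow, Polynomial.finsetSum_coeff]
  refine Finset.sum_congr rfl fun k hk => ?_
  have hk1 : k ≤ m := Nat.lt_succ_iff.1 (Finset.mem_range.1 hk)
  have h1 : (Polynomial.C w * (Polynomial.X + 1) ^ 2) ^ k * Polynomial.X ^ (m - k) *
      ((m.choose k : ℕ) : Polynomial S) =
      Polynomial.C (w ^ k * ((m.choose k : ℕ) : S)) * ((Polynomial.X + 1) ^ (2 * k) * Polynomial.X ^ (m - k)) := by
    rw [Polynomial.C_mul, Polynomial.C_pow, pow_mul, mul_pow, map_natCast]
    ring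
  rw [h1, Polynomial.coeff_C_mul]
  have h2 : ((Polynomial.X + (1 : Polynomial S)) ^ (2 * k) * Polynomial.X ^ (m - k)).coeff m =
      ((Polynomial.X + (1 : Polynomial S)) ^ (2 * k)).coeff k := by
    have h3 := Polynomial.coeff_mul_X_pow ((Polynomial.X + (1 : Polynomial S)) ^ (2 * k)) (m - k) k
    rw [Nat.add_sub_cancel' hk1] at h3
    exact h3
  rw [h2, Polynomial.coeff_X_add_one_pow, Nat.centralBinom]
  ring

/-- the middle coefficient of `(X² + 1)^i` -/
theorem mid (i : ℕ) : (((Polynomial.X : Polynomial S) ^ 2 + 1) ^ i).coeff i =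
    if 2 ∣ i then (((i / 2).centralBinom : ℕ) : S) else 0 := by
  have h1 : ((Polynomial.X : Polynomial S) ^ 2 + 1) ^ i = Polynomial.expand S 2 ((Polynomial.X + 1) ^ i) := by
    rw [map_pow, map_add, map_one, Polynomial.expand_X]
  rw [h1, Polynomial.coeff_expand (by norm_num)]
  split_ifs with h
  · obtain ⟨j, rfl⟩ := h
    rw [Nat.mul_div_cancel_left _ (by norm_num), Polynomial.coeff_X_add_one_pow, Nat.centralBinom]
  · rfl

theorem evR (m : ℕ) (w : S) :
    ((Polynomial.C w * (Polynomial.X + 1) ^ 2 + Polynomial.X) ^ m).coeff m =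
      ∑ i ∈ range (m + 1), ((m.choose i : ℕ) : S) * (if 2 ∣ i then (((i / 2).centralBinom : ℕ) : S) else 0) *
        (1 + 2 * w) ^ (m - i) * w ^ i := by
  have h0 : Polynomial.C w * (Polynomial.X + 1) ^ 2 + Polynomial.X =
      Polynomial.C w * (Polynomial.X ^ 2 + 1) + Polynomial.C (1 + 2 * w) * Polynomial.X := by
    rw [map_add, map_mul, map_one, map_ofNat]
    ring
  rw [h0, add_pow, Polynomial.finsetSum_coeff]
  refine Finset.sum_congr rfl fun k hk => ?_
  have hk1 : k ≤ m := Nat.lt_succ_iff.1 (Finset.mem_range.1 hk)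
  have h1 : (Polynomial.C w * (Polynomial.X ^ 2 + 1)) ^ k * (Polynomial.C (1 + 2 * w) * Polynomial.X) ^ (m - k) *
      ((m.choose k : ℕ) : Polynomial S) =
      Polynomial.C (w ^ k * (1 + 2 * w) ^ (m - k) * ((m.choose k : ℕ) : S)) *
        ((Polynomial.X ^ 2 + 1) ^ k * Polynomial.X ^ (m - k)) := by
    rw [Polynomial.C_mul, Polynomial.C_mul, Polynomial.C_pow, Polynomial.C_pow, mul_pow, mul_pow, map_natCast]
    ring
  rw [h1, Polynomial.coeff_C_mul]
  have h2 : ((Polynomial.X ^ 2 + (1 : Polynomial S)) ^ k * Polynomial.X ^ (m - k)).coeff m =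
      ((Polynomial.X ^ 2 + (1 : Polynomial S)) ^ k).coeff k := by
    have h3 := Polynomial.coeff_mul_X_pow ((Polynomial.X ^ 2 + (1 : Polynomial S)) ^ k) (m - k) k
    rw [Nat.add_sub_cancel' hk1] at h3
    exact h3
  rw [h2, mid]
  ring

theorem sum_even (g : ℕ → S) (hg : ∀ i, ¬ 2 ∣ i → g i = 0) (m : ℕ) :
    ∑ i ∈ range (m + 1), g i = ∑ j ∈ range (m / 2 + 1), g (2 * j) := by
  have h1 : ∑ j ∈ range (m / 2 + 1), g (2 * j) = ∑ i ∈ (range (m / 2 + 1)).image (fun j => 2 * j), g i := by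
    rw [sum_image]
    intro a _ b _ hab
    simpa using hab
  rw [h1]
  symm
  apply sum_subset
  · intro i hi
    obtain ⟨j, hj, rfl⟩ := mem_image.mp hi
    have := mem_range.mp hj
    exact mem_range.mpr (by omega)
  · intro i hi hi'
    apply hg
    rintro ⟨j, rfl⟩
    apply hi'
    have := mem_range.mp hi
    exact mem_image.mpr ⟨j, mem_range.mpr (by omega), rfl⟩

end

theorem ev : S_EV := by
  intro S _ m w
  rw [← evL, evR, sum_even]
  · unfold Pf
    refine sum_congr rfl fun j _ => ?_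
    rw [if_pos (Dvd.intro _ rfl), Nat.mul_div_cancel_left _ (by norm_num), ← pow_mul]
  · intro i hi
    rw [if_neg hi, mul_zero, zero_mul, zero_mul]

end Pool.Agent.Q267.E8
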