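import Pool.Agent.Q267.E8.Teich
import Pool.Agent.Q267.E8.Alg
import Pool.Agent.Q10.E8.HQ
import Pool.Agent.Q10.E8.RARB
import Pool.Agent.Q144.E8.CN
import Pool.Agent.Q144.E8.LK
import Pool.Agent.Q149.E8.CL
import Pool.Agent.Q149.E8.FI
import Pool.Agent.Q153.E8.AE1
import Pool.Agent.Q153.E8.AE3
import Pool.Agent.Q153.E8.HD
import Pool.Agent.Q156.E8.BB3
import Pool.Agent.Q156.E8.REC
import Pool.Agent.Q156.E8.XV
import Pool.Agent.Q182.E8.BA
import Pool.Agent.Q187.E8.DU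
import Pool.Agent.Q231.E8.CH
import Pool.Agent.Q239.E8.Tz
import Pool.Agent.Q261.E8.HM
import Pool.Agent.Q277.E8.EXB
import Pool.Agent.Q277.E8.WB
import Pool.Agent.Q53.E8.SG
import Pool.Agent.Q92.E8.TV
import Pool.Agent.Q94.E8.EE
import Pool.Agent.Q267.MW.D8

set_option autoImplicit false

/-!
# The unit root modulo `p²` for `p = x² + 2y²`
-/

namespace Pool.Agent.Q267.E8

open Finset Pool.Agent.Q267.CDE Pool.Agent.Q267.MW

/-- the Fermat quotient exists -/
theorem exists_Q (p : ℕ) [Fact p.Prime] (hp2 : p ≠ 2) : ∃ Q : ZMod p, (2 : R p) ^ (p - 1) = 1 + p * lift p Q := by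
  have h2 : (2 : ZMod p) ≠ 0 := by
    have := cast_ne p 2 (by norm_num) (lt_of_le_of_ne (Fact.out : p.Prime).two_le (Ne.symm hp2))
    exact_mod_cast this
  have h1 : red p ((2 : R p) ^ (p - 1)) = red p 1 := by
    rw [map_pow, map_one, map_ofNat, ZMod.pow_card_sub_one_eq_one h2]
  obtain ⟨y, hy⟩ := red_eq_of p _ _ h1
  refine ⟨red p y, ?_⟩
  rw [hy]
  congr 1
  apply p_mul_eq
  rw [red_lift]

/-- the unit `u` -/
noncomputable def U (p q m : ℕ) [Fact p.Prime] : R p := ((m.choose q : ℕ) : R p) *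
    (1 - p * lift p ((H (ZMod p) m - 3 / 4 * H (ZMod p) (m - q) - 1 / 4 * H (ZMod p) q) / 2))

theorem red_U (p q m : ℕ) [Fact p.Prime] : red p (U p q m) = red p (((m.choose q : ℕ) : R p)) := by
  unfold U
  rw [map_mul, map_sub, map_mul, red_nat p p, ZMod.natCast_self, zero_mul, map_one, sub_zero, mul_one]

/-- the trace is `4x` or `-4x` -/
theorem T_val (p N : ℕ) [Fact p.Prime] (K : Type) [Field K] [Finite K] [Algebra (ZMod p) K]
    (z : K) (a : ℕ → ZMod p) (e : ℤ) (hp2 : p ≠ 2) (hp3 : p ≠ 3) (hN : 0 < N) (h4 : 4 ∣ N) (he : e = 1 ∨ e = -1)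
    (hpN : (p : ℤ) = N + e) (hch : quadraticChar (ZMod p) (-1) = e) (h : Tor p N K z a) (x y : ℤ)
    (hxy : (p : ℤ) = x ^ 2 + 2 * y ^ 2) : T p N a = 4 * x ∨ T p N a = -(4 * x) := by
  classical
  have hlk := Pool.Agent.Q144.E8.lk p N K z a e hp2 hN h4 he hpN hch h
    (Pool.Agent.Q144.E8.cn p N K z e hp2 hN he hpN h.prim)
    (Pool.Agent.Q231.E8.ch p N K z e hp2 hN h4 he hpN h.prim)
  have htr := trace8 p hp2 hp3 x y hxy
  have hee := Pool.Agent.Q94.E8.ee p hp2 hp3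
  rcases hee with h1 | h1 <;> rcases htr with h2 | h2 <;> rw [h1, h2] at hlk
  · left; rw [hlk]; ring
  · right; rw [hlk]; ring
  · right; rw [hlk]; ring
  · left; rw [hlk]; ring

theorem unit_choose (p n k : ℕ) [Fact p.Prime] (hn : n < p) (hk : k ≤ n) : IsUnit (((n.choose k : ℕ)) : R p) := by
  apply isUnit_of_red
  rw [red_nat, Ne, ZMod.natCast_eq_zero_iff]
  intro h
  have h1 : p ∣ n.factorial := by
    rw [← Nat.choose_mul_factorial_mul_factorial hk, mul_assoc]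
    exact h.mul_right _
  rw [(Fact.out : p.Prime).dvd_factorial] at h1
  omega

/-- Case 1: the unit root -/
theorem case1 (hWA : S_WA) (hWC : S_WC) (p q : ℕ) [Fact p.Prime] (hq : 0 < q) (hpq : p = 8 * q + 1) (x y : ℤ)
    (hxy : (p : ℤ) = x ^ 2 + 2 * y ^ 2) (hx : (4 : ℤ) ∣ x - 1) :
    (2 * (x : R p) - (-1) ^ q * U p q (4 * q)) * (2 * x) = p := by
  have hp2 : p ≠ 2 := by omega
  obtain ⟨z, a, ht⟩ := exa p q hpq
  have hch : quadraticChar (ZMod p) (-1) = 1 := by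
    rw [quadraticChar_neg_one (by rw [ZMod.ringChar_zmod_n]; exact hp2), ZMod.card, hpq,
      ZMod.χ₄_nat_eq_if_mod_four]
    have h1 : (8 * q + 1) % 2 ≠ 0 := by omega
    have h2 : (8 * q + 1) % 4 = 1 := by omega
    simp [h1, h2]
  have hT := T_val p (8 * q) (ZMod p) z a 1 hp2 (by omega) (by omega) (by omega) (Or.inl rfl)
    (by rw [hpq]; push_cast; ring) hch ht x y hxy
  obtain ⟨t, ht4, hts⟩ := Pool.Agent.Q53.E8.sg1 p q (ZMod p) z a hpq hq ht
  have hdiv := teich hWA Pool.Agent.Q277.E8.wb hWC p (4 * q) (8 * q) (ZMod p) z a (by omega) (by omega)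
    (by omega) (by omega) ht
  have hTV := Pool.Agent.Q92.E8.tv1 Pool.Agent.Q153.E8.ae1 Pool.Agent.Q182.E8.ba Pool.Agent.Q182.E8.bb1
    p q (T p (8 * q) a) hpq hq (by push_cast at hdiv ⊢; exact hdiv)
  -- `t = -(-1)^q x`
  have htx : T p (8 * q) a = 4 * (-((-1) ^ q * x)) := by
    rcases neg_one_pow_eq_or ℤ q with h1 | h1
    · rw [h1] at hts ⊢
      rcases hT with h2 | h2 <;> omega
    · rw [h1] at hts ⊢
      rcases hT with h2 | h2 <;> omega
  rw [htx] at hTV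
  have h3q : 4 * q - q = 3 * q := by omega
  have h2u : IsUnit (2 : R p) := by
    have := isUnit_nat p 2 (by norm_num) (by omega)
    exact_mod_cast this
  apply fin_alg p ((-1) ^ q * U p q (4 * q)) (((4 * q).choose q : ℕ) : R p) (x : R p) ((-1) ^ q)
    (unit_choose p (4 * q) q (by omega) (by omega))
  · rw [← mul_pow]; norm_num
  · have hs : ((-1 : R p)) ^ q * (-1) ^ q = 1 := by rw [← mul_pow]; norm_num
    apply h2u.mul_left_cancel
    unfold U
    rw [h3q]
    push_cast at hTV ⊢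
    linear_combination (-1) * hTV - 2 * ((((4 * q).choose q : ℕ) : R p) ^ 2 *
      (1 - p * lift p ((H (ZMod p) (4 * q) - 3 / 4 * H (ZMod p) (3 * q) - 1 / 4 * H (ZMod p) q) / 2))) * hs
  · rw [← mul_assoc, ← mul_pow]
    norm_num
    rw [red_U, red_nat]

/-- Case 3: the unit root -/
theorem case3 (hWA : S_WA) (hWC : S_WC) (p q : ℕ) [Fact p.Prime] (hq : 0 < q) (hpq : p = 8 * q + 3) (x y : ℤ)
    (hxy : (p : ℤ) = x ^ 2 + 2 * y ^ 2) (hx : (4 : ℤ) ∣ x - 1) :
    (2 * (x : R p) - (-1) ^ (q + 1) * U p q (4 * q + 1)) * (2 * x) = p := by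
  have hp2 : p ≠ 2 := by omega
  obtain ⟨z, a, ht⟩ := Pool.Agent.Q277.E8.exb p q hpq
  have hfin : Finite (GaloisField p 2) := inferInstance
  have hch : quadraticChar (ZMod p) (-1) = -1 := by
    rw [quadraticChar_neg_one (by rw [ZMod.ringChar_zmod_n]; exact hp2), ZMod.card, hpq,
      ZMod.χ₄_nat_eq_if_mod_four]
    have h1 : (8 * q + 3) % 2 ≠ 0 := by omega
    have h2 : (8 * q + 3) % 4 = 3 := by omega
    simp [h1, h2]
  have hT := T_val p (8 * q + 4) (GaloisField p 2) z a (-1) hp2 (by omega) (by omega) (by omega) (Or.inr rfl)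
    (by rw [hpq]; push_cast; ring) hch ht x y hxy
  obtain ⟨t, ht4, hts⟩ := Pool.Agent.Q53.E8.sg3 p q (GaloisField p 2) z a hpq hq ht
  have hdiv := teich hWA Pool.Agent.Q277.E8.wb hWC p (4 * q + 1) (8 * q + 4) (GaloisField p 2) z a (by omega)
    (by omega) (by omega) (by omega) ht
  have hTV := Pool.Agent.Q92.E8.tv3 Pool.Agent.Q153.E8.ae3 Pool.Agent.Q182.E8.ba Pool.Agent.Q156.E8.bb3
    p q (T p (8 * q + 4) a) hpq hq (by push_cast at hdiv ⊢; exact hdiv)
  have htx : T p (8 * q + 4) a = 4 * (-((-1) ^ q * x)) := by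
    rcases neg_one_pow_eq_or ℤ q with h1 | h1
    · rw [h1] at hts ⊢
      rcases hT with h2 | h2 <;> omega
    · rw [h1] at hts ⊢
      rcases hT with h2 | h2 <;> omega
  rw [htx] at hTV
  have h3q : 4 * q + 1 - q = 3 * q + 1 := by omega
  have h2u : IsUnit (2 : R p) := by
    have := isUnit_nat p 2 (by norm_num) (by omega)
    exact_mod_cast this
  apply fin_alg p ((-1) ^ (q + 1) * U p q (4 * q + 1)) (((4 * q + 1).choose q : ℕ) : R p) (x : R p)
    ((-1) ^ (q + 1)) (unit_choose p (4 * q + 1) q (by omega) (by omega))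
  · rw [← mul_pow]; norm_num
  · have hs : ((-1 : R p)) ^ q * (-1) ^ q = 1 := by rw [← mul_pow]; norm_num
    apply h2u.mul_left_cancel
    unfold U
    rw [h3q, pow_succ (-1 : R p) q]
    push_cast at hTV ⊢
    linear_combination hTV - 2 * ((((4 * q + 1).choose q : ℕ) : R p) ^ 2 *
      (1 - p * lift p ((H (ZMod p) (4 * q + 1) - 3 / 4 * H (ZMod p) (3 * q + 1) -
        1 / 4 * H (ZMod p) q) / 2))) * hs
  · rw [← mul_assoc, ← mul_pow]
    norm_num
    rw [red_U, red_nat]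

end Pool.Agent.Q267.E8
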