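import Pool.Agent.Q267.E8.Main1

set_option autoImplicit false

/-!
# The supercongruence of MP_c35bdc_nt
-/

namespace Pool.Agent.Q267.E8

open Finset Pool.Agent.Q267.CDE Pool.Agent.Q267.MW

theorem exists_x4 (p : ℕ) [Fact p.Prime] (hp2 : p ≠ 2) : ∃ h x : R p, 2 * h = -1 ∧ 4 * x = -1 := by
  have h2 : IsUnit (2 : R p) := by
    have := isUnit_nat p 2 (by norm_num) (lt_of_le_of_ne (Fact.out : p.Prime).two_le (Ne.symm hp2))
    exact_mod_cast this
  obtain ⟨b, hb⟩ := h2.exists_right_inv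
  refine ⟨-b, -(b * b), by linear_combination -hb, by linear_combination -(2 * b + 1) * hb⟩

theorem base_val (p m : ℕ) [Fact p.Prime] (hpm : p = 2 * m + 1) (h3 : 3 < p) (h c : R p) (hh : 2 * h = -1)
    (Q : ZMod p) (hQ : (2 : R p) ^ (p - 1) = 1 + p * lift p Q) : TT p h (p * c) = 1 - p * c * lift p Q := by
  rw [Pool.Agent.Q239.E8.tz p h c (by omega) hh,
    Pool.Agent.Q156.E8.xv p m Q hpm h3 (Pool.Agent.Q261.E8.hm p m Q hpm hQ)
      (Pool.Agent.Q10.E8.hq Pool.Agent.Q261.E8.hm p m Q hpm h3 hQ)]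

theorem four_cancel (p : ℕ) [Fact p.Prime] (hp2 : p ≠ 2) (x y : R p) (h : 4 * x = 4 * y) : x = y := by
  have h2 : IsUnit (2 : R p) := by
    have := isUnit_nat p 2 (by norm_num) (lt_of_le_of_ne (Fact.out : p.Prime).two_le (Ne.symm hp2))
    exact_mod_cast this
  apply h2.mul_left_cancel
  apply h2.mul_left_cancel
  linear_combination h

theorem val1 (p q : ℕ) [Fact p.Prime] (hq : 0 < q) (hpq : p = 8 * q + 1) (h x : R p) (hh : 2 * h = -1)
    (hx : 4 * x = -1) : TT p h x = (-1) ^ q * U p q (4 * q) := by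
  have hp2 : p ≠ 2 := by omega
  obtain ⟨Q, hQ⟩ := exists_Q p hp2
  have hpm : p = 2 * (4 * q) + 1 := by omega
  have hb := base_val p (4 * q) hpm (by omega) h x hh Q hQ
  have hcl := Pool.Agent.Q149.E8.cl p h x Q hp2
    (fun y hy => Pool.Agent.Q156.E8.recT p h y hp2 hh hy) hb q (by omega)
  have hpR : (p : R p) = 8 * q + 1 := by
    have := congrArg (Nat.cast : ℕ → R p) hpq
    push_cast at this
    exact this
  have hxe : x = p * x + 2 * q := by
    apply four_cancel p hp2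
    linear_combination (1 - (p : R p)) * hx + hpR
  rw [← hxe] at hcl
  have hHM := Pool.Agent.Q261.E8.hm p (4 * q) Q hpm hQ
  have hHQ := Pool.Agent.Q10.E8.hq Pool.Agent.Q261.E8.hm p (4 * q) Q hpm (by omega) hQ
  rw [show p / 4 = 2 * q by omega] at hHQ
  have hHD := Pool.Agent.Q153.E8.hd p (4 * q) q hpm (by omega)
  have hDU := Pool.Agent.Q187.E8.du p (4 * q) q hpm (by omega)
  have h3q : 4 * q - q = 3 * q := by omega
  rw [h3q] at hHD hDU
  have := Pool.Agent.Q149.E8.fi1 p q x (TT p h x) Q hpq hq hx hHM hHQ hHD hDU hcl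
  rw [this]
  unfold U
  rw [h3q, mul_assoc]

theorem val3 (p q : ℕ) [Fact p.Prime] (hq : 0 < q) (hpq : p = 8 * q + 3) (h x : R p) (hh : 2 * h = -1)
    (hx : 4 * x = -1) : TT p h x = (-1) ^ (q + 1) * U p q (4 * q + 1) := by
  have hp2 : p ≠ 2 := by omega
  obtain ⟨Q, hQ⟩ := exists_Q p hp2
  have hpm : p = 2 * (4 * q + 1) + 1 := by omega
  have hb := base_val p (4 * q + 1) hpm (by omega) h (3 * x) hh Q hQ
  have hcl := Pool.Agent.Q149.E8.cl p h (3 * x) Q hp2
    (fun y hy => Pool.Agent.Q156.E8.recT p h y hp2 hh hy) hb (3 * q + 1) (by omega)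
  have hpR : (p : R p) = 8 * q + 3 := by
    have := congrArg (Nat.cast : ℕ → R p) hpq
    push_cast at this
    exact this
  have hxe : x = p * (3 * x) + 2 * ((3 * q + 1 : ℕ) : R p) := by
    apply four_cancel p hp2
    push_cast
    linear_combination (1 - 3 * (p : R p)) * hx + 3 * hpR
  rw [← hxe, show 2 * (3 * q + 1) = 6 * q + 2 by ring] at hcl
  have hHM := Pool.Agent.Q261.E8.hm p (4 * q + 1) Q hpm hQ
  have hHQ := Pool.Agent.Q10.E8.hq Pool.Agent.Q261.E8.hm p (4 * q + 1) Q hpm (by omega) hQ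
  rw [show p / 4 = 2 * q by omega] at hHQ
  have hHD := Pool.Agent.Q153.E8.hd p (4 * q + 1) (3 * q + 1) hpm (by omega)
  have hDU := Pool.Agent.Q187.E8.du p (4 * q + 1) (3 * q + 1) hpm (by omega)
  have h3q : 4 * q + 1 - (3 * q + 1) = q := by omega
  have h3q' : 4 * q + 1 - q = 3 * q + 1 := by omega
  have hrf : H (ZMod p) (6 * q + 2) = H (ZMod p) (2 * q) := by
    have := H_refl p (by rw [hpq]; exact ⟨4 * q + 1, by ring⟩) (2 * q) (by omega)
    rw [show p - 1 - 2 * q = 6 * q + 2 by omega] at this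
    exact this
  rw [h3q, show 2 * (3 * q + 1) = 6 * q + 2 by ring] at hHD
  rw [h3q] at hDU
  rw [show (6 * q + 2) = 2 * (3 * q + 1) by ring] at hcl
  have := Pool.Agent.Q149.E8.fi3 p q x (TT p h x) Q hpq hq hx hHM hHQ hrf hHD hDU
    (by rw [show (6 * q + 2) = 2 * (3 * q + 1) by ring]; exact hcl)
  rw [this]
  unfold U
  rw [h3q', mul_assoc]

/-- `p` does not divide `2x` -/
theorem ndvd (p : ℕ) [hp : Fact p.Prime] (h3 : 3 < p) (x y : ℤ) (hxy : (p : ℤ) = x ^ 2 + 2 * y ^ 2) :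
    ¬ (p : ℤ) ∣ 2 * x := by
  intro h
  have hpp : Prime (p : ℤ) := Nat.prime_iff_prime_int.mp hp.out
  rcases hpp.dvd_or_dvd h with h1 | h1
  · have := Int.le_of_dvd (by norm_num) h1
    omega
  · obtain ⟨c, hc⟩ := h1
    have hp0 : (0 : ℤ) < p := by exact_mod_cast hp.out.pos
    have hx0 : x ≠ 0 := by
      rintro rfl
      have h2 : (p : ℤ) = 2 * y ^ 2 := by rw [hxy]; ring
      have h3' : p % 2 = 0 := by
        have : (p : ℤ) % 2 = 0 := by rw [h2]; omega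
        omega
      have := hp.out.eq_two_or_odd
      omega
    have hc0 : c ≠ 0 := by
      rintro rfl
      exact hx0 (by rw [hc]; ring)
    have hc1 : 1 ≤ c ^ 2 := by
      have : 0 < c ^ 2 := by positivity
      omega
    have : (p : ℤ) ^ 2 ≤ x ^ 2 := by
      rw [hc, mul_pow]
      nlinarith [sq_nonneg (p : ℤ)]
    nlinarith [sq_nonneg y]

/-- the residue class of `p` -/
theorem mod8 (p : ℕ) [hp : Fact p.Prime] (h3 : 3 < p) (x y : ℤ) (hxy : (p : ℤ) = x ^ 2 + 2 * y ^ 2) :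
    p % 8 = 1 ∨ p % 8 = 3 := by
  have hodd : p % 2 = 1 := by
    rcases hp.out.eq_two_or_odd with h | h
    · omega
    · exact h
  have h1 : ((p : ℤ) % 8) = 1 ∨ ((p : ℤ) % 8) = 3 := by
    have hx : x % 8 = 0 ∨ x % 8 = 1 ∨ x % 8 = 2 ∨ x % 8 = 3 ∨ x % 8 = 4 ∨ x % 8 = 5 ∨ x % 8 = 6 ∨ x % 8 = 7 := by
      omega
    have hy : y % 8 = 0 ∨ y % 8 = 1 ∨ y % 8 = 2 ∨ y % 8 = 3 ∨ y % 8 = 4 ∨ y % 8 = 5 ∨ y % 8 = 6 ∨ y % 8 = 7 := by
      omega
    have h2 : (p : ℤ) % 8 = ((x % 8) ^ 2 + 2 * (y % 8) ^ 2) % 8 := by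
      rw [hxy]
      simp [pow_two, Int.add_emod, Int.mul_emod]
    have h4 : (p : ℤ) % 2 = 1 := by omega
    rcases hx with hx | hx | hx | hx | hx | hx | hx | hx <;>
      rcases hy with hy | hy | hy | hy | hy | hy | hy | hy <;>
      rw [hx, hy] at h2 <;> norm_num at h2 <;> omega
  omega

theorem main_split (hWA : S_WA) (hWC : S_WC) (p : ℕ) [Fact p.Prime] (h3 : 3 < p) (x y : ℤ)
    (hxy : (p : ℤ) = x ^ 2 + 2 * y ^ 2) (hx : (4 : ℤ) ∣ x - 1) :
    Cong p 2 (SS p) (2 * (x : ℚ) - p / (2 * x)) := by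
  have hp2 : p ≠ 2 := by omega
  obtain ⟨h, x4, hh, hx4⟩ := exists_x4 p hp2
  have hra := Pool.Agent.Q10.E8.ra p h x4 hp2 hh hx4
  refine ((Pool.Agent.Q10.E8.rb p (SS p) (2 * (x : ℚ) - p / (2 * x)) (TT p h x4)) hra).1 ?_
  apply isRed_val p x (ndvd p h3 x y hxy)
  rcases mod8 p h3 x y hxy with h8 | h8
  · obtain ⟨q, hq⟩ : ∃ q, p = 8 * q + 1 := ⟨p / 8, by omega⟩
    rw [val1 p q (by omega) hq h x4 hh hx4]
    exact case1 hWA hWC p q (by omega) hq x y hxy hx
  · obtain ⟨q, hq⟩ : ∃ q, p = 8 * q + 3 := ⟨p / 8, by omega⟩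
    rw [val3 p q (by omega) hq h x4 hh hx4]
    exact case3 hWA hWC p q (by omega) hq x y hxy hx

theorem main_inert (p : ℕ) [Fact p.Prime] (h3 : 3 < p) (h8 : p % 8 = 5 ∨ p % 8 = 7) : Cong p 1 (SS p) 0 := by
  have hp2 : p ≠ 2 := by omega
  obtain ⟨h, x4, hh, hx4⟩ := exists_x4 p hp2
  have hra := Pool.Agent.Q10.E8.ra p h x4 hp2 hh hx4
  refine ((Pool.Agent.Q10.E8.rb p (SS p) 0 (TT p h x4)) hra).2 ?_
  have h2 : (2 : ZMod p) ≠ 0 := by
    have := cast_ne p 2 (by norm_num) (by omega)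
    exact_mod_cast this
  have hrx : 4 * red p x4 = -1 := by
    have := congrArg (red p) hx4
    rw [map_mul, map_neg, map_one, map_ofNat] at this
    exact this
  rcases h8 with h8 | h8
  · obtain ⟨k, hk⟩ : ∃ k, p = 8 * k + 5 := ⟨p / 8, by omega⟩
    apply Pool.Agent.Q239.E8.od p h hp2 hh (fun y hy => Pool.Agent.Q156.E8.recT p h y hp2 hh hy) k x4 (by omega)
    have hpz : (8 * (k : ZMod p) + 5) = 0 := by
      have := congrArg (Nat.cast : ℕ → ZMod p) hk
      rw [ZMod.natCast_self] at this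
      push_cast at this
      exact this.symm
    apply mul_left_cancel₀ h2
    apply mul_left_cancel₀ h2
    linear_combination hrx - hpz
  · obtain ⟨k, hk⟩ : ∃ k, p = 8 * k + 7 := ⟨p / 8, by omega⟩
    apply Pool.Agent.Q239.E8.od p h hp2 hh (fun y hy => Pool.Agent.Q156.E8.recT p h y hp2 hh hy) (3 * k + 2) x4
      (by omega)
    have hpz : (8 * (k : ZMod p) + 7) = 0 := by
      have := congrArg (Nat.cast : ℕ → ZMod p) hk
      rw [ZMod.natCast_self] at this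
      push_cast at this
      exact this.symm
    apply mul_left_cancel₀ h2
    apply mul_left_cancel₀ h2
    push_cast
    linear_combination hrx - 3 * hpz

end Pool.Agent.Q267.E8
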