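import Pool.Agent.Q267.E8.Stm

set_option autoImplicit false

/-!
# Divisibility by `p²` in Witt vectors
-/

namespace Pool.Agent.Q267.E8

open Finset Pool.Agent.Q267.CDE Pool.Agent.Q267.MW

theorem dvd_one (p : ℕ) [Fact p.Prime] (K : Type) [Field K] [CharP K p] (n : ℤ)
    (h : ((p : WittVector p K)) ∣ (n : WittVector p K)) : (p : ℤ) ∣ n := by
  obtain ⟨y, hy⟩ := h
  have h1 := congrArg WittVector.constantCoeff hy
  rw [map_mul, map_intCast, map_natCast, CharP.cast_eq_zero K p, zero_mul] at h1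
  exact (CharP.intCast_eq_zero_iff K p n).mp h1

theorem wc : S_WC := by
  intro p _ K _ _ _ n h
  have h1 : ((p : WittVector p K)) ∣ (n : WittVector p K) := (dvd_pow_self _ two_ne_zero).trans h
  obtain ⟨c, hc⟩ := dvd_one p K n h1
  subst hc
  have h0 : (p : WittVector p K) ≠ 0 := WittVector.p_nonzero p K
  push_cast at h
  rw [pow_two] at h
  have h2 := (mul_dvd_mul_iff_left h0).mp h
  obtain ⟨d, hd⟩ := dvd_one p K c h2
  exact ⟨d, by rw [hd]; ring⟩

/-- the geometric sum -/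
theorem geo {W : Type} [CommRing W] [IsDomain W] (w : W) (N : ℕ) (hN : 0 < N) (h : IsPrimitiveRoot w N) (e : ℕ) :
    ∑ i ∈ range N, (w ^ e) ^ i = if N ∣ e then (N : W) else 0 := by
  split_ifs with hd
  · have : w ^ e = 1 := (h.pow_eq_one_iff_dvd e).mpr hd
    rw [this]
    simp
  · have h1 : w ^ e ≠ 1 := fun h2 => hd ((h.pow_eq_one_iff_dvd e).mp h2)
    have h2 := geom_sum_mul (w ^ e) N
    rw [← pow_mul, mul_comm e N, pow_mul, h.pow_eq_one, one_pow, sub_self] at h2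
    exact (mul_eq_zero.mp h2).resolve_right (sub_ne_zero.mpr h1)

theorem sq_eq_one_iff_of_ne {W : Type} [CommRing W] [IsDomain W] {a : W} (h : a ^ 2 = 1) : a = 1 ∨ a = -1 := by
  have h1 : (a - 1) * (a + 1) = 0 := by linear_combination h
  rcases mul_eq_zero.mp h1 with h2 | h2
  · left; linear_combination h2
  · right; linear_combination h2

theorem wa : S_WA := by
  intro W _ _ w N M hN h4 h
  have hhalf : w ^ (N / 2) = -1 := by
    have h1 : (w ^ (N / 2)) ^ 2 = 1 := by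
      rw [← pow_mul, show N / 2 * 2 = N by omega, h.pow_eq_one]
    have h2 : w ^ (N / 2) ≠ 1 := by
      intro h3
      have h5 := (h.pow_eq_one_iff_dvd _).mp h3
      have := Nat.le_of_dvd (by omega) h5
      omega
    rcases sq_eq_one_iff_of_ne h1 with h3 | h3
    · exact absurd h3 h2
    · exact h3
  have e1 : ∀ i ∈ range N, (-1 : W) ^ i * (w ^ (2 * i) + (w ^ (N - 1)) ^ (2 * i)) ^ M =
      ∑ j ∈ range (M + 1), ((M.choose j : ℕ) : W) * (w ^ (N / 2 + 2 * j + (N - 1) * (2 * (M - j)))) ^ i := by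
    intro i _
    rw [add_pow, mul_sum]
    refine sum_congr rfl fun j _ => ?_
    rw [← hhalf]
    have e2 : (w ^ (N / 2 + 2 * j + (N - 1) * (2 * (M - j)))) ^ i =
        (w ^ (N / 2)) ^ i * ((w ^ (2 * i)) ^ j * ((w ^ (N - 1)) ^ (2 * i)) ^ (M - j)) := by
      rw [← pow_mul, ← pow_mul, ← pow_mul, ← pow_mul, ← pow_mul, ← pow_add, ← pow_add]
      congr 1
      ring
    rw [e2]
    ring
  rw [sum_congr rfl e1, sum_comm]
  have e3 : ∀ j ∈ range (M + 1), ∑ i ∈ range N, ((M.choose j : ℕ) : W) *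
      (w ^ (N / 2 + 2 * j + (N - 1) * (2 * (M - j)))) ^ i = (N : W) *
      (((if (N : ℤ) ∣ ((N / 2 : ℕ) : ℤ) + 4 * j - 2 * M then (M.choose j : ℤ) else 0 : ℤ)) : W) := by
    intro j hj
    have hj' : j ≤ M := by
      have := mem_range.mp hj
      omega
    rw [← mul_sum, geo w N hN h]
    have hiff : N ∣ N / 2 + 2 * j + (N - 1) * (2 * (M - j)) ↔ (N : ℤ) ∣ ((N / 2 : ℕ) : ℤ) + 4 * j - 2 * M := by
      rw [← Int.natCast_dvd_natCast]
      have e4 : ((N / 2 + 2 * j + (N - 1) * (2 * (M - j)) : ℕ) : ℤ) =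
          (((N / 2 : ℕ) : ℤ) + 4 * j - 2 * M) + (N : ℤ) * (2 * (M - j)) := by
        push_cast [Nat.cast_sub hj', Nat.cast_sub (show 1 ≤ N by omega)]
        ring
      rw [e4]
      exact dvd_add_left (Dvd.intro _ rfl)
    by_cases hd : (N : ℤ) ∣ ((N / 2 : ℕ) : ℤ) + 4 * j - 2 * M
    · rw [if_pos hd, if_pos (hiff.mpr hd)]
      push_cast
      ring
    · rw [if_neg hd, if_neg (fun h' => hd (hiff.mp h'))]
      push_cast
      ring
  rw [sum_congr rfl e3, ← mul_sum]
  unfold A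
  push_cast
  rfl

end Pool.Agent.Q267.E8
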