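import Pool.Agent.Q267.E8.Main1c
import Pool.Agent.Q267.E8.WC
import Pool.Agent.Q121.E8.K2
import Pool.Agent.Q182.E8.CB
import Pool.Agent.Q265.E8.LG
import Pool.Agent.Q153.E8.DF
import Pool.Agent.Q192.E8.II
import Pool.Agent.Q164.E8.RT
import Pool.Agent.Q164.E8.LD
import Pool.Agent.Q153.E8.PG
import Pool.Agent.Q181.E8.PE
import Pool.Agent.Q299.E8.PO
import Pool.Agent.Q154.E8.GV
import Pool.Agent.Q192.E8.SN1
import Pool.Agent.Q299.E8.SN3
import Pool.Agent.Q299.E8.RS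
import Pool.Agent.Q205.E8.LF1
import Pool.Agent.Q154.E8.RB1
import Pool.Agent.Q149.E8.EJ
import Pool.Agent.Q149.E8.LF3
import Pool.Agent.Q205.E8.AX
import Pool.Agent.Q176.E8.PV1
import Pool.Agent.Q176.E8.PV3

set_option autoImplicit false

/-!
# The supercongruence of MP_a989c0_nt (Q1)
-/

namespace Pool.Agent.Q267.E8

open Finset Pool.Agent.Q267.CDE Pool.Agent.Q267.MW

theorem exists_half (p : ℕ) [Fact p.Prime] (hp2 : p ≠ 2) : ∃ h : R p, 2 * h = 1 := by
  have h2 : IsUnit (2 : R p) := by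
    have := isUnit_nat p 2 (by norm_num) (lt_of_le_of_ne (Fact.out : p.Prime).two_le (Ne.symm hp2))
    exact_mod_cast this
  exact h2.exists_right_inv

/-- `2` is a square modulo `p²` -/
theorem exists_sqrt (p : ℕ) [Fact p.Prime] (h8 : p % 8 = 1) : ∃ r : R p, r ^ 2 = 2 := by
  have hp2 : p ≠ 2 := by omega
  obtain ⟨h, hh⟩ := exists_half p hp2
  have h2 : IsSquare (2 : ZMod p) := (ZMod.exists_sq_eq_two_iff hp2).mpr (Or.inl h8)
  obtain ⟨s, hs⟩ := h2
  have h20 : (2 : ZMod p) ≠ 0 := by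
    have := cast_ne p 2 (by norm_num) (lt_of_le_of_ne (Fact.out : p.Prime).two_le (Ne.symm hp2))
    exact_mod_cast this
  have hs0 : s ≠ 0 := by
    rintro rfl
    exact h20 (by rw [hs]; ring)
  set t : R p := lift p s with ht
  have htu : IsUnit t := isUnit_of_red p (by rw [ht, red_lift]; exact hs0)
  obtain ⟨v, hv⟩ := htu.exists_right_inv
  obtain ⟨y, hy⟩ := red_eq_of p (t ^ 2) 2 (by rw [map_pow, ht, red_lift, map_ofNat, hs]; ring)
  refine ⟨t - p * (y * v * h), ?_⟩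
  have hpp := p_sq p
  linear_combination hy - 2 * p * y * h * hv - p * y * hh + y ^ 2 * v ^ 2 * h ^ 2 * hpp

/-- the common value `T2 = 4^q u (1 - p Q / 4)` -/
theorem T2_val (hC2 : S_C2) (p q m : ℕ) [Fact p.Prime] (hq : 0 < q) (hpm : p = 2 * m + 1) (hqm : 4 * q ≤ m)
    (hm1 : m ≤ 4 * q + 1) (x : R p) (hx : 4 * x = -1) (Q : ZMod p) (hQ : (2 : R p) ^ (p - 1) = 1 + p * lift p Q) :
    T2 p (p * x + 2 * q) = 4 ^ q * U p q m * (1 - p * lift p (Q / 4)) := by
  have hp2 : p ≠ 2 := by omega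
  have hHM := Pool.Agent.Q261.E8.hm p m Q hpm hQ
  have hHQ := Pool.Agent.Q10.E8.hq Pool.Agent.Q261.E8.hm p m Q hpm (by omega) hQ
  rw [show p / 4 = 2 * q by omega] at hHQ
  have hHD := Pool.Agent.Q153.E8.hd p m q hpm (by omega)
  have hDU := Pool.Agent.Q187.E8.du p m q hpm (by omega)
  rw [hC2 p x q hp2 (by omega)]
  exact Pool.Agent.Q154.E8.gv p q m x Q hpm (by omega) (by omega) hx hHM hHQ hHD hDU

theorem K1_plus (hK1 : S_K1) (S : Type) [CommRing S] (m : ℕ) (r : S) (hr : r ^ 2 = 2) :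
    Kf m (-2 * (1 + r)) = (1 + r) ^ (2 * m) * Ff m (-2 * (1 - r)) := by
  have e1 : 1 - -2 * (1 + r) = (1 + r) ^ 2 := by linear_combination -hr
  have e2 : (1 + r) ^ 2 * (1 - r) ^ 2 = 1 := by linear_combination (r ^ 2) * hr
  have h := hK1 S m (-2 * (1 + r)) ((1 - r) ^ 2) (by rw [e1, e2])
  have e3 : -(-2 * (1 + r) * (1 - r) ^ 2) = -2 * (1 - r) := by linear_combination (2 * r - 2) * hr
  rw [h, e1, e3, pow_mul]

theorem K1_minus (hK1 : S_K1) (S : Type) [CommRing S] (m : ℕ) (r : S) (hr : r ^ 2 = 2) :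
    Kf m (-2 * (1 - r)) = (1 - r) ^ (2 * m) * Ff m (-2 * (1 + r)) := by
  have := K1_plus hK1 S m (-r) (by rw [neg_sq, hr])
  rw [← sub_eq_add_neg, sub_neg_eq_add] at this
  exact this

/-- Case 1 -/
theorem s0_case1 (hK1 : S_K1) (hEV : S_EV) (hEK : S_EK) (hC2 : S_C2) (p q : ℕ) [Fact p.Prime] (hq : 0 < q)
    (hpq : p = 8 * q + 1) : IsRed p (S0 p) (2 * ((-1) ^ q * U p q (4 * q))) := by
  have hp2 : p ≠ 2 := by omega
  have hpm : p = 2 * (4 * q) + 1 := by omega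
  obtain ⟨r, hr⟩ := exists_sqrt p (by omega)
  obtain ⟨h, hh⟩ := exists_half p hp2
  obtain ⟨h', x, hh', hx⟩ := exists_x4 p hp2
  obtain ⟨Q, hQ⟩ := exists_Q p hp2
  have hpR : (p : R p) = 8 * q + 1 := by
    have := congrArg (Nat.cast : ℕ → R p) hpq
    push_cast at this
    exact this
  have hxe : p * x + 2 * q = x := by
    apply four_cancel p hp2
    linear_combination ((p : R p) - 1) * hx - hpR
  have hT2 := T2_val hC2 p q (4 * q) hq hpm le_rfl (by omega) x hx Q hQ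
  rw [hxe] at hT2
  have hPS : ∑ j ∈ range (2 * q + 1), (((2 * (2 * q)).choose (2 * j) : ℕ) : R p) * ((j.centralBinom : ℕ) : R p) *
      (h ^ 2) ^ j * 2 ^ (2 * q - j) = T2 p x := by
    rw [Pool.Agent.Q181.E8.pe p (2 * q) h hh (by omega)]
    apply Pool.Agent.Q153.E8.pg p (2 * q) x (-((2 * q : ℕ) : R p) - h) (-x) (by omega)
    · push_cast
      linear_combination hxe
    · apply four_cancel p hp2
      push_cast
      linear_combination -(1 + (p : R p)) * hx - 2 * hh + hpR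
  have hE : Ef (4 * q) ((1 + r) * h) = (1 + r) ^ (4 * q) * T2 p x := by
    have := Pool.Agent.Q176.E8.pv1 hEV p (2 * q) (R p) r h hr hh
    rw [hPS] at this
    have e4 : 2 * (2 * q) = 4 * q := by ring
    rw [e4] at this
    exact this
  have hK := K1_plus hK1 (R p) (4 * q) r hr
  rw [show 2 * (4 * q) = 8 * q by ring] at hK
  have hEKp := hEK p (4 * q) (R p) (-2 * (1 + r)) ((1 + r) * h) hpm (by linear_combination -2 * (1 + r) * hh)
  have h1 : Ff (4 * q) (-2 * (1 + r)) + (1 + r) ^ (8 * q) * Ff (4 * q) (-2 * (1 - r)) =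
      2 * ((1 + r) ^ (4 * q) * T2 p x) := by
    rw [← hK, ← hEKp, hE]
  have h2 := Pool.Agent.Q154.E8.RB.rb1 p q r (T2 p x) hpq hr hK (by rw [← hE, hEKp])
  have hsn := Pool.Agent.Q192.E8.sn1 p q (ZMod p) (red p r) hpq (by rw [← map_pow, hr, map_ofNat])
  have hfin := Pool.Agent.Q205.E8.lf1 p q r (Ff (4 * q) (-2 * (1 + r))) (Ff (4 * q) (-2 * (1 - r)))
    (U p q (4 * q)) (T2 p x) h Q hpq hr hh hQ h1 h2 hT2
    (by simp only [map_mul, map_pow, map_add, map_one, map_ofNat]; exact hsn)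
  apply Pool.Agent.Q299.E8.rs Pool.Agent.Q182.E8.cb p (4 * q) (R p) r _ hpm hr
  · intro a b hab
    exact hab
  · rw [hfin]
    rfl

/-- Case 3 -/
theorem s0_case3 (hK1 : S_K1) (hEV : S_EV) (hEK : S_EK) (hC2 : S_C2) (p q : ℕ) [Fact p.Prime] (hq : 0 < q)
    (hpq : p = 8 * q + 3) : IsRed p (S0 p) (2 * ((-1) ^ (q + 1) * U p q (4 * q + 1))) := by
  have hp2 : p ≠ 2 := by omega
  have hpm : p = 2 * (4 * q + 1) + 1 := by omega
  obtain ⟨S, _, _, K, _, _, ρ, r, hr, hinj, hker⟩ := Pool.Agent.Q205.E8.ax p q hpq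
  obtain ⟨h, hh⟩ := exists_half p hp2
  obtain ⟨h', x, hh', hx⟩ := exists_x4 p hp2
  obtain ⟨Q, hQ⟩ := exists_Q p hp2
  have hpR : (p : R p) = 8 * q + 3 := by
    have := congrArg (Nat.cast : ℕ → R p) hpq
    push_cast at this
    exact this
  have hxe : p * x + 2 * q = 3 * x := by
    apply four_cancel p hp2
    linear_combination ((p : R p) - 3) * hx - hpR
  have hT2 := T2_val hC2 p q (4 * q + 1) hq hpm (by omega) le_rfl x hx Q hQ
  rw [hxe] at hT2
  have hPS : ∑ j ∈ range (2 * q + 1), (((2 * (2 * q) + 1).choose (2 * j) : ℕ) : R p) *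
      ((j.centralBinom : ℕ) : R p) * (h ^ 2) ^ j * 2 ^ (2 * q - j) = T2 p (3 * x) := by
    rw [Pool.Agent.Q299.E8.po p (2 * q) h hh (by omega)]
    apply Pool.Agent.Q153.E8.pg p (2 * q) (3 * x) (-((2 * q : ℕ) : R p) - 3 * h) (-x) (by omega)
    · push_cast
      linear_combination hxe
    · apply four_cancel p hp2
      push_cast
      linear_combination -(3 + (p : R p)) * hx - 6 * hh + hpR
  have hhS : 2 * algebraMap (R p) S h = 1 := by
    have := congrArg (algebraMap (R p) S) hh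
    rw [map_mul, map_one, map_ofNat] at this
    exact this
  have hE : Ef (4 * q + 1) ((1 + r) * algebraMap (R p) S h) = (1 + r) ^ (4 * q + 1) *
      (r * algebraMap (R p) S (T2 p (3 * x))) := by
    have := Pool.Agent.Q176.E8.pv3 hEV p (2 * q) S r h hr hh
    rw [hPS] at this
    have e4 : 2 * (2 * q) = 4 * q := by ring
    rw [e4] at this
    exact this
  have hKp := K1_plus hK1 S (4 * q + 1) r hr
  have hKm := K1_minus hK1 S (4 * q + 1) r hr
  have hEKp := hEK p (4 * q + 1) S (-2 * (1 + r)) ((1 + r) * algebraMap (R p) S h) hpm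
    (by linear_combination -2 * (1 + r) * hhS)
  have hEKm := hEK p (4 * q + 1) S (-2 * (1 - r)) ((1 - r) * algebraMap (R p) S h) hpm
    (by linear_combination -2 * (1 - r) * hhS)
  have h1 : Ff (4 * q + 1) (-2 * (1 + r)) + (1 + r) ^ (2 * (4 * q + 1)) * Ff (4 * q + 1) (-2 * (1 - r)) =
      2 * ((1 + r) ^ (4 * q + 1) * (r * algebraMap (R p) S (T2 p (3 * x)))) := by
    rw [← hKp, ← hEKp, hE]
  -- the Landen transformation
  have hLD := Pool.Agent.Q164.E8.ld S (4 * q + 1) (r - 1) (algebraMap (R p) S h)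
    (by linear_combination algebraMap (R p) S h * hr + hhS)
  have hK2 := Pool.Agent.Q121.E8.k2 S (4 * q + 1) (-2 * (1 - r))
  have e5 : (1 : S) - -2 * (1 - r) = (r - 1) ^ 2 := by linear_combination -hr
  have hodd : ((-1 : S)) ^ (4 * q + 1) = -1 := by
    rw [pow_succ, pow_mul]
    norm_num
  rw [e5, hodd] at hK2
  have e6 : (1 + (r - 1)) ^ (2 * (4 * q + 1)) = (2 : S) ^ (4 * q + 1) := by
    rw [pow_mul, show (1 + (r - 1)) ^ 2 = (2 : S) by linear_combination hr]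
  rw [hK2, e6, show -((r - 1) * algebraMap (R p) S h) = (1 - r) * algebraMap (R p) S h by ring] at hLD
  have h2 : (2 : S) ^ (4 * q + 1) * (Ff (4 * q + 1) (-2 * (1 - r)) + Kf (4 * q + 1) (-2 * (1 - r))) =
      -2 * Kr (4 * q + 1) (-2 * (1 - r)) := by
    rw [← hEKm]
    linear_combination -2 * hLD
  have hII := Pool.Agent.Q192.E8.ii Pool.Agent.Q265.E8.lg Pool.Agent.Q265.E8.lm Pool.Agent.Q153.E8.df
    p (4 * q + 1) S (-2 * (1 - r)) hpm (by omega)
  have hb := Pool.Agent.Q149.E8.ej p q S r (Ff (4 * q + 1) (-2 * (1 + r))) (Ff (4 * q + 1) (-2 * (1 - r)))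
    (Kf (4 * q + 1) (-2 * (1 - r))) (Kr (4 * q + 1) (-2 * (1 - r))) Q hpq hr hQ hKm h2 hII
  have hsn := Pool.Agent.Q299.E8.sn3 p q K (ρ r) hpq (by rw [← map_pow, hr, map_ofNat])
  have hfin := Pool.Agent.Q149.E8.lf3 p q S K ρ r (Ff (4 * q + 1) (-2 * (1 + r)))
    (Ff (4 * q + 1) (-2 * (1 - r))) (U p q (4 * q + 1)) (T2 p (3 * x)) Q hker hpq hr hQ h1 hb hT2
    (by simp only [map_mul, map_pow, map_add, map_one, map_ofNat]; exact hsn)
  exact Pool.Agent.Q299.E8.rs Pool.Agent.Q182.E8.cb p (4 * q + 1) S r _ hpm hr hinj hfin.symm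

/-- doubling -/
theorem isRed_two (p : ℕ) (u : ℚ) (c : R p) (h : IsRed p u c) : IsRed p (2 * u) (2 * c) := by
  obtain ⟨n, d, hd, hu, hc⟩ := h
  refine ⟨2 * n, d, hd, ?_, ?_⟩
  · rw [hu]
    push_cast
    ring
  · push_cast
    linear_combination 2 * hc

theorem main_q1 (hK1 : S_K1) (hEV : S_EV) (hEK : S_EK) (hC2 : S_C2) (p : ℕ) [Fact p.Prime] (h3 : 3 < p)
    (x y : ℤ) (hxy : (p : ℤ) = x ^ 2 + 2 * y ^ 2) (hx : (4 : ℤ) ∣ x - 1) :
    Cong p 2 (S0 p) (4 * (x : ℚ) - p / x) := by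
  have hx0 : (x : ℚ) ≠ 0 := by
    have := ndvd p h3 x y hxy
    intro h
    apply this
    have : x = 0 := by exact_mod_cast h
    rw [this]
    simp
  have he : 4 * (x : ℚ) - p / x = 2 * (2 * (x : ℚ) - p / (2 * x)) := by
    field_simp
    ring
  rw [he]
  rcases mod8 p h3 x y hxy with h8 | h8
  · obtain ⟨q, hq⟩ : ∃ q, p = 8 * q + 1 := ⟨p / 8, by omega⟩
    refine ((Pool.Agent.Q10.E8.rb p (S0 p) _ _) (s0_case1 hK1 hEV hEK hC2 p q (by omega) hq)).1 ?_
    apply isRed_two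
    apply isRed_val p x (ndvd p h3 x y hxy)
    exact case1 wa wc p q (by omega) hq x y hxy hx
  · obtain ⟨q, hq⟩ : ∃ q, p = 8 * q + 3 := ⟨p / 8, by omega⟩
    refine ((Pool.Agent.Q10.E8.rb p (S0 p) _ _) (s0_case3 hK1 hEV hEK hC2 p q (by omega) hq)).1 ?_
    apply isRed_two
    apply isRed_val p x (ndvd p h3 x y hxy)
    exact case3 wa wc p q (by omega) hq x y hxy hx

end Pool.Agent.Q267.E8
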