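import Pool.Agent.Q267.MW.C3Bin

set_option autoImplicit false

/-!
# Project E8: the supercongruence of MP_c35bdc_nt (full answer): statements

Notation (files `Pool/Agent/Q267/CDE/{Base,Harm,Jac}.lean`, `Pool/Agent/Q267/MW/{Char,C3Bin}.lean`):
`R p = ZMod (p ^ 2)`, `red p : R p →+* ZMod p`, `lift p : ZMod p → R p` a section of `red p`,
`p_mul_eq` (`p x` depends only on `red p x`), `p_sq`, `isUnit_nat`, `isUnit_of_red`, `red_eq_of`, `red_lift`,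
`H F n = ∑_{i<n} 1/(i+1)` in the field `F`, `H_succ`, `H_refl`, `fact_refl`, `choose_neg`.

Two cases: CASE 1: `p = 8 q + 1`, `N = 8 q`, `m = 4 q`;  CASE 3: `p = 8 q + 3`, `N = 8 q + 4`, `m = 4 q + 1`.
Always `p = 2 m + 1`.
-/

namespace Pool.Agent.Q267.E8

open Finset Pool.Agent.Q267.CDE Pool.Agent.Q267.MW

/-- the character sum -/
def T (p N : ℕ) [Fact p.Prime] (a : ℕ → ZMod p) : ℤ :=
  ∑ i ∈ range N, (-1) ^ i * quadraticChar (ZMod p) (a i)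

/-- the binomial sum which is the expansion of `T` -/
def A (N M : ℕ) : ℤ :=
  ∑ j ∈ range (M + 1), if (N : ℤ) ∣ ((N / 2 : ℕ) : ℤ) + 4 * j - 2 * M then (M.choose j : ℤ) else 0

/-- `z` is a primitive `N`-th root of unity in `K`, and `a i = z^(2i) + z^(-2i)` lies in the prime field -/
structure Tor (p N : ℕ) [Fact p.Prime] (K : Type) [Field K] [Algebra (ZMod p) K] (z : K) (a : ℕ → ZMod p) :
    Prop where
  prim : IsPrimitiveRoot z N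
  val : ∀ i, algebraMap (ZMod p) K (a i) = z ^ (2 * i) + z⁻¹ ^ (2 * i)

/-- EXA. A primitive root exists (`K = ZMod p`, the unit group is cyclic of order `8 q`). -/
def S_EXA : Prop := ∀ (p q : ℕ) [Fact p.Prime], p = 8 * q + 1 →
  ∃ (z : ZMod p) (a : ℕ → ZMod p), Tor p (8 * q) (ZMod p) z a

/-- EXB. Case 3: `K = GaloisField p 2` has `p ^ 2` elements, `Kˣ` is cyclic with a generator `g`, take
`z = g ^ (p - 1)`, of order `p + 1 = 8 q + 4`; then `z ^ p = z⁻¹`, so `s = z^(2i) + z^(-2i)` has `s ^ p = s`,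
and therefore `s` lies in the prime field (the `p` elements of the prime field are all roots of `X ^ p - X`). -/
def S_EXB : Prop := ∀ (p q : ℕ) [Fact p.Prime], p = 8 * q + 3 →
  ∃ (z : GaloisField p 2) (a : ℕ → ZMod p), Tor p (8 * q + 4) (GaloisField p 2) z a

/-- WA. In a domain `W` with a primitive `N`-th root of unity `w` (`4 ∣ N`, `0 < N`):
`∑_{i<N} (-1)^i (w^(2i) + w^(-2i))^M = N * A N M`, where `w^(-1) = w^(N-1)`.
Proof: `(-1) ^ i = w ^ (i * (N/2))` (`w^(N/2) = -1`), expand by the binomial theorem: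
the exponent of `w` in the `j`-th term is `i * (N/2 + 2 j - 2 (M - j)) = i * (N/2 + 4 j - 2 M)` modulo `N`, and
`∑_{i<N} w^(i e) = N` if `N ∣ e` and `0` otherwise (`(w^e - 1) * ∑ = w^(eN) - 1 = 0`). -/
def S_WA : Prop := ∀ (W : Type) [CommRing W] [IsDomain W] (w : W) (N M : ℕ), 0 < N → 4 ∣ N →
  IsPrimitiveRoot w N →
  ∑ i ∈ range N, (-1) ^ i * (w ^ (2 * i) + (w ^ (N - 1)) ^ (2 * i)) ^ M = (N : W) * ((A N M : ℤ) : W)

/-- WB. Witt vectors of a finite field `K` of characteristic `p = 2 m + 1 ≥ 5`: if `u ∈ W(K)` reduces to the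
element `a` of the prime field then `χ(a) ≡ (1 - m) u^m + m u^(3m)` modulo `p²`.
Proof: `u^m` reduces to `a^m = χ(a)` (Euler), so `u^m = χ(a) + p e` (the kernel of the reduction is `(p)`:
`WittVector.constantCoeff`, `K` perfect). If `χ(a) = ±1` then `u^(3m) = χ(a)^3 + 3 p χ(a)^2 e` modulo `p²`
`= χ(a) + 3 p e`, and `(1 - m) p e + 3 m p e = p e (1 + 2m) = p² e`. If `a = 0` then `p ∣ u`, `m ≥ 2`, and
`p² ∣ u^m`. -/
def S_WB : Prop := ∀ (p m : ℕ) [Fact p.Prime] (K : Type) [Field K] [Finite K] [Algebra (ZMod p) K] [CharP K p]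
  (a : ZMod p) (u : WittVector p K), p = 2 * m + 1 → 2 ≤ m →
  WittVector.constantCoeff u = algebraMap (ZMod p) K a →
  ((p : WittVector p K)) ^ 2 ∣ ((quadraticChar (ZMod p) a : ℤ) : WittVector p K) -
    ((1 - (m : WittVector p K)) * u ^ m + (m : WittVector p K) * u ^ (3 * m))

/-- WC. `p² ∣ n` in `W(K)` implies `p² ∣ n` in `ℤ` (`W(K)` is a domain of characteristic `0` and
`p` is not a unit; reduce modulo `p` twice). -/
def S_WC : Prop := ∀ (p : ℕ) [Fact p.Prime] (K : Type) [Field K] [Finite K] [CharP K p] (n : ℤ),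
  ((p : WittVector p K)) ^ 2 ∣ (n : WittVector p K) → (p : ℤ) ^ 2 ∣ n

/-- AE1. Values of `A` in case 1. (`8q ∣ 4q + 4j - 8q` iff `8q ∣ 4 (j - q)`, i.e. `j ≡ q` modulo `2q`;
`8q ∣ 4q + 4j - 24q` iff `j ≡ q` modulo `2q`; `C(12q, 12q - j) = C(12q, j)`.) -/
def S_AE1 : Prop := ∀ q : ℕ, 0 < q →
  A (8 * q) (4 * q) = 2 * ((4 * q).choose q : ℤ) ∧
  A (8 * q) (3 * (4 * q)) = 2 * (((12 * q).choose q : ℤ) + ((12 * q).choose (3 * q) : ℤ) +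
    ((12 * q).choose (5 * q) : ℤ))

/-- AE3. Values of `A` in case 3. (`M = 4q+1`: `j ≡ q` modulo `2q+1`, i.e. `j = q, 3q+1`;
`M = 12q+3`: `j ≡ 5q + 1` modulo `2q+1`, i.e. `j = q-1, 3q, 5q+1, 7q+2, 9q+3, 11q+4`.) -/
def S_AE3 : Prop := ∀ q : ℕ, 0 < q →
  A (8 * q + 4) (4 * q + 1) = 2 * ((4 * q + 1).choose q : ℤ) ∧
  A (8 * q + 4) (3 * (4 * q + 1)) = 2 * (((12 * q + 3).choose (q - 1) : ℤ) +
    ((12 * q + 3).choose (3 * q) : ℤ) + ((12 * q + 3).choose (5 * q + 1) : ℤ))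

/-- BA. `C(p + n, k) ≡ C(n, k) (1 + p (H_n - H_{n-k}))` modulo `p²` for `k ≤ n < p`. Induction on `k` as in
`choose_neg` (file `MW/C3Bin.lean`). -/
def S_BA : Prop := ∀ (p n k : ℕ) [Fact p.Prime], k ≤ n → n < p →
  (((p + n).choose k : ℕ) : R p) = ((n.choose k : ℕ) : R p) *
    (1 + p * lift p (H (ZMod p) n - H (ZMod p) (n - k)))

/-- BB1. Case 1: `C(12q, 5q) C(4q, q) ≡ -2p` modulo `p²`. Here `12 q = p + (4q - 1)` and `(12q)! =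
p * (p-1)! * ∏_{i<4q-1} (p + i + 1) = p * x` with `x ≡ - (4q-1)!` modulo `p`, `(5q)! (3q)! ≡ (-1)^(3q+1)` and
`(7q)! q! ≡ (-1)^(q+1)`, `((4q)!)^2 ≡ -1` (`fact_refl`), `4 q ≡ -1/2`. -/
def S_BB1 : Prop := ∀ (p q : ℕ) [Fact p.Prime], p = 8 * q + 1 →
  (((12 * q).choose (5 * q) : ℕ) : R p) * (((4 * q).choose q : ℕ) : R p) = -2 * p

/-- BB3. Case 3: `C(12q+3, 5q+1) C(4q+1, q) ≡ -2p` modulo `p²`. Here `12 q + 3 = p + 4q`,
`(5q+1)! (3q+1)! ≡ (-1)^(3q+2)`, `(7q+2)! q! ≡ (-1)^(q+1)`, `((4q+1)!)^2 ≡ 1`, `4q+1 ≡ -1/2`. -/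
def S_BB3 : Prop := ∀ (p q : ℕ) [Fact p.Prime], p = 8 * q + 3 →
  (((12 * q + 3).choose (5 * q + 1) : ℕ) : R p) * (((4 * q + 1).choose q : ℕ) : R p) = -2 * p

/-- TV1. Case 1, combination: with `B = C(4q, q)`,
`T B = -2 (B² (1 - p (H_{4q} - 3/4 H_{3q} - 1/4 H_q)/2) + p)` modulo `p²`.
Proof: the hypothesis gives `T = (p-1) ((1-m) 2 B + 2 m (C(12q,q) + C(12q,3q) + C(12q,5q)))` with `m = 4q`; by BA
(`12 q = p + (4q-1)`), `C(12q,q) = C(4q-1,q) (1 + p (H_{4q-1} - H_{3q-1}))`,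
`C(12q,3q) = C(4q-1,3q) (1 + p (H_{4q-1} - H_{q-1}))`; `4q C(4q-1,q) = 3q B`, `4q C(4q-1,3q) = q B`
(exact identities in ℕ, sum of the two `= B`); `H_{4q-1} = H_{4q} - 1/(4q)` etc., `8q ≡ -1` modulo `p`. -/
def S_TV1 : Prop := ∀ (p q : ℕ) [Fact p.Prime] (t : ℤ), p = 8 * q + 1 → 0 < q →
  (p : ℤ) ^ 2 ∣ t - (8 * q : ℤ) * ((1 - 4 * q) * A (8 * q) (4 * q) + 4 * q * A (8 * q) (3 * (4 * q))) →
  (t : R p) * (((4 * q).choose q : ℕ) : R p) = -2 * ((((4 * q).choose q : ℕ) : R p) ^ 2 *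
    (1 - p * lift p ((H (ZMod p) (4 * q) - 3 / 4 * H (ZMod p) (3 * q) - 1 / 4 * H (ZMod p) q) / 2)) + p)

/-- TV3. Case 3, combination: with `B = C(4q+1, q)`,
`T B = 2 (B² (1 - p (H_{4q+1} - 3/4 H_{3q+1} - 1/4 H_q)/2) + p)` modulo `p²`.
Proof: the hypothesis gives `T = (p+1) ((1-m) 2 B + 2 m (C(12q+3,q-1) + C(12q+3,3q) + C(12q+3,5q+1)))` with
`m = 4q+1`; by BA (`12 q + 3 = p + 4q`), `C(12q+3,q-1) = C(4q,q-1) (1 + p (H_{4q} - H_{3q+1}))`,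
`C(12q+3,3q) = C(4q,3q) (1 + p (H_{4q} - H_q))`; `(4q+1) C(4q,q-1) = q B`, `C(4q,q-1) + C(4q,3q) = B`;
`H_{4q} = H_{4q+1} - 1/(4q+1)`, `2 (4q+1) ≡ -1` modulo `p`. -/
def S_TV3 : Prop := ∀ (p q : ℕ) [Fact p.Prime] (t : ℤ), p = 8 * q + 3 → 0 < q →
  (p : ℤ) ^ 2 ∣ t - (8 * q + 4 : ℤ) * ((1 - (4 * q + 1)) * A (8 * q + 4) (4 * q + 1) +
    (4 * q + 1) * A (8 * q + 4) (3 * (4 * q + 1))) →
  (t : R p) * (((4 * q + 1).choose q : ℕ) : R p) = 2 * ((((4 * q + 1).choose q : ℕ) : R p) ^ 2 *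
    (1 - p * lift p ((H (ZMod p) (4 * q + 1) - 3 / 4 * H (ZMod p) (3 * q + 1) - 1 / 4 * H (ZMod p) q) / 2)) + p)

/-- binomial coefficient `C(x, k)` with upper argument in `ℤ/p²` (`k < p`) -/
noncomputable def bR (p : ℕ) (x : R p) (k : ℕ) : R p :=
  (∏ i ∈ range k, (x - (i : R p))) * ((k.factorial : ℕ) : R p)⁻¹

/-- `∑_{k<p} C(x,k) C(2k,k) h^k` -/
noncomputable def TT (p : ℕ) (h x : R p) : R p :=
  ∑ k ∈ range p, bR p x k * ((k.centralBinom : ℕ) : R p) * h ^ k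

/-- REC. With `h = -1/2`: `(x+2) TT(x+2) = (x+1) TT(x)` if `x` is not `-2` modulo `p`.
Proof (Zeilberger): for `1 ≤ K ≤ p`,
`∑_{k<K} ((x+2) C(x+2,k) - (x+1) C(x,k)) C(2k,k) h^k = -K C(x+1,K-1) C(2K,K) h^K` by induction on `K`;
the step uses `C(x+2,k) = C(x+1,k) + C(x+1,k-1)`, `(x+1) C(x,k) = (x+1-k) C(x+1,k)`,
`k C(x+1,k) = (x+2-k) C(x+1,k-1)`, `(k+1) C(2k+2,k+1) = 2 (2k+1) C(2k,k)`. (For `K = p` one can stop at
`K = p-1` and add the last term by hand.) For `K = p` the right side is `0`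
since `p ∣ C(x+1,p-1)` when `x+1` is one of `0, ..., p-2` modulo `p`. -/
def S_REC : Prop := ∀ (p : ℕ) [Fact p.Prime] (h x : R p), p ≠ 2 → 2 * h = -1 → red p x ≠ -2 →
  (x + 2) * TT p h (x + 2) = (x + 1) * TT p h x

/-- TZ. `TT(p c) = 1 - p c X` with `X = ∑_{k=1}^{p-1} C(2k,k)/(k 2^k)` in `ZMod p`
(`C(pc, k) = p c (-1)^(k-1)/k` modulo `p²` for `0 < k < p`). -/
def S_TZ : Prop := ∀ (p : ℕ) [Fact p.Prime] (h c : R p), p ≠ 2 → 2 * h = -1 →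
  TT p h (p * c) = 1 - p * c * lift p (∑ k ∈ range (p - 1),
    (((k + 1).centralBinom : ℕ) : ZMod p) * (((k : ZMod p) + 1) * 2 ^ (k + 1))⁻¹)

/-- HM. `H_m = -2 Q`, `Q` the Fermat quotient of `2`. -/
def S_HM : Prop := ∀ (p m : ℕ) [Fact p.Prime] (Q : ZMod p), p = 2 * m + 1 →
  (2 : R p) ^ (p - 1) = 1 + p * lift p Q → H (ZMod p) m = -2 * Q

/-- HQ. `H_{⌊p/4⌋} = -3 Q`. (Glaisher; e.g. `a Q_a = ∑_{k=1}^{p-1} ⌊ak/p⌋/k` with `a = 4`, `Q_4 = 2 Q`: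
`8 Q = -(H_{⌊p/4⌋} + H_{⌊p/2⌋} + H_{⌊3p/4⌋}) = - 2 H_{⌊p/4⌋} - H_m`.) -/
def S_HQ : Prop := ∀ (p m : ℕ) [Fact p.Prime] (Q : ZMod p), p = 2 * m + 1 → 3 < p →
  (2 : R p) ^ (p - 1) = 1 + p * lift p Q → H (ZMod p) (p / 4) = -3 * Q

/-- XV. `∑_{k=1}^{p-1} C(2k,k)/(k 2^k) = Q` modulo `p`, given HM and HQ.
Proof: only `k ≤ m` count, and `C(2k,k) = (-4)^k C(m,k)` modulo `p`; so the sum is
`∑_{k=1}^m C(m,k) (-2)^k / k`. For every polynomial identity: `∑_{k=1}^m C(m,k) y^k/k = ∑_{j=1}^m ((1+y)^j - 1)/j`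
(induction on `m` with Pascal's rule), so it is `∑_{j=1}^m ((-1)^j - 1)/j = -2 ∑_{j odd ≤ m} 1/j =
-2 (H_m - H_{⌊m/2⌋}/2) = -2 (-2 Q + 3 Q/2) = Q`, `⌊m/2⌋ = ⌊p/4⌋`. -/
def S_XV : Prop := ∀ (p m : ℕ) [Fact p.Prime] (Q : ZMod p), p = 2 * m + 1 → 3 < p →
  H (ZMod p) m = -2 * Q → H (ZMod p) (p / 4) = -3 * Q →
  ∑ k ∈ range (p - 1), (((k + 1).centralBinom : ℕ) : ZMod p) * (((k : ZMod p) + 1) * 2 ^ (k + 1))⁻¹ = Q

/-- CL. The closed form: `4^l TT(p c + 2 l) = C(2l,l) (1 + p c (H_{2l} - H_l - Q))` for `2 l < p`, from the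
recursion (`red p (p c + 2 j) ≠ -2` for `2 j + 2 < p`, `p` odd) and `TT(p c) = 1 - p c Q`.
Induction on `l`: `(2l+2+pc) TT(pc+2l+2) = (2l+1+pc) TT(pc+2l)`, `(l+1) C(2l+2,l+1) = 2 (2l+1) C(2l,l)`. -/
def S_CL : Prop := ∀ (p : ℕ) [Fact p.Prime] (h c : R p) (Q : ZMod p), p ≠ 2 →
  (∀ x : R p, red p x ≠ -2 → (x + 2) * TT p h (x + 2) = (x + 1) * TT p h x) →
  TT p h (p * c) = 1 - p * c * lift p Q → ∀ l : ℕ, 2 * l < p →
  4 ^ l * TT p h (p * c + 2 * l) = (((2 * l).choose l : ℕ) : R p) *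
    (1 + p * c * lift p (H (ZMod p) (2 * l) - H (ZMod p) l - Q))

/-- OD. The odd case: `TT(x) ≡ 0` modulo `p` if `x ≡ 2 l + 1` with `2 l + 1 < p`
(`TT(1 + p c) ≡ 1 + 2 h = 0`, and the recursion). -/
def S_OD : Prop := ∀ (p : ℕ) [Fact p.Prime] (h : R p), p ≠ 2 → 2 * h = -1 →
  (∀ x : R p, red p x ≠ -2 → (x + 2) * TT p h (x + 2) = (x + 1) * TT p h x) →
  ∀ (l : ℕ) (x : R p), 2 * l + 1 < p → red p x = 2 * l + 1 → red p (TT p h x) = 0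

/-- HD. `2 H_{2l} - H_l = H_{m-l} - H_m` in `ZMod p`, `p = 2m+1`, `l ≤ m`. (Induction on `l`:
`2/(2l+1) = -1/(m-l)`.) -/
def S_HD : Prop := ∀ (p m l : ℕ) [Fact p.Prime], p = 2 * m + 1 → l ≤ m →
  2 * H (ZMod p) (2 * l) - H (ZMod p) l = H (ZMod p) (m - l) - H (ZMod p) m

/-- DU. `C(2l,l) = (-4)^l C(m,l) (1 - p (H_m - H_{m-l})/2)` modulo `p²`, `p = 2m+1`, `l ≤ m`.
(Induction on `l`: `(l+1) C(2l+2,l+1) = 2 (2l+1) C(2l,l)`, `(l+1) C(m,l+1) = (m-l) C(m,l)`,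
`2l+1 = p - 2(m-l) = -2 (m-l) (1 - p/(2(m-l)))`.) -/
def S_DU : Prop := ∀ (p m l : ℕ) [Fact p.Prime], p = 2 * m + 1 → l ≤ m →
  (((2 * l).choose l : ℕ) : R p) = (-4) ^ l * ((m.choose l : ℕ) : R p) *
    (1 - p * lift p ((H (ZMod p) m - H (ZMod p) (m - l)) / 2))

/-- FI1. Case 1: the value of `TT(-1/4)`. Here `-1/4 = 2q - p/4`: use the closed form with `l = q`,
`c = -1/4`, DU with `m = 4q`, `l = q`, HD with `l = q`, HM and HQ (`p/4 = 2q`):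
`H_{4q} = -2Q`, `H_{2q} = -3Q`, `H_{3q} = -8Q - H_q`. -/
def S_FI1 : Prop := ∀ (p q : ℕ) [Fact p.Prime] (x s : R p) (Q : ZMod p), p = 8 * q + 1 → 0 < q →
  4 * x = -1 → H (ZMod p) (4 * q) = -2 * Q → H (ZMod p) (2 * q) = -3 * Q →
  2 * H (ZMod p) (2 * q) - H (ZMod p) q = H (ZMod p) (3 * q) - H (ZMod p) (4 * q) →
  (((2 * q).choose q : ℕ) : R p) = (-4) ^ q * (((4 * q).choose q : ℕ) : R p) *
    (1 - p * lift p ((H (ZMod p) (4 * q) - H (ZMod p) (3 * q)) / 2)) →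
  4 ^ q * s = (((2 * q).choose q : ℕ) : R p) * (1 + p * x * lift p (H (ZMod p) (2 * q) - H (ZMod p) q - Q)) →
  s = (-1) ^ q * (((4 * q).choose q : ℕ) : R p) *
    (1 - p * lift p ((H (ZMod p) (4 * q) - 3 / 4 * H (ZMod p) (3 * q) - 1 / 4 * H (ZMod p) q) / 2))

/-- FI3. Case 3: the value of `TT(-1/4)`. Here `-1/4 = (6q+2) - 3p/4`: the closed form with `l = 3q+1`,
`c = 3x` (`x = -1/4`), DU with `m = 4q+1`, `l = 3q+1`, `m - l = q`, HD with `l = 3q+1`, HM, HQ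
(`p/4 = 2q`), `H_{6q+2} = H_{2q}` (`H_refl`). -/
def S_FI3 : Prop := ∀ (p q : ℕ) [Fact p.Prime] (x s : R p) (Q : ZMod p), p = 8 * q + 3 → 0 < q →
  4 * x = -1 → H (ZMod p) (4 * q + 1) = -2 * Q → H (ZMod p) (2 * q) = -3 * Q →
  H (ZMod p) (6 * q + 2) = H (ZMod p) (2 * q) →
  2 * H (ZMod p) (6 * q + 2) - H (ZMod p) (3 * q + 1) = H (ZMod p) q - H (ZMod p) (4 * q + 1) →
  (((2 * (3 * q + 1)).choose (3 * q + 1) : ℕ) : R p) = (-4) ^ (3 * q + 1) *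
    (((4 * q + 1).choose (3 * q + 1) : ℕ) : R p) *
    (1 - p * lift p ((H (ZMod p) (4 * q + 1) - H (ZMod p) q) / 2)) →
  4 ^ (3 * q + 1) * s = (((2 * (3 * q + 1)).choose (3 * q + 1) : ℕ) : R p) *
    (1 + p * (3 * x) * lift p (H (ZMod p) (6 * q + 2) - H (ZMod p) (3 * q + 1) - Q)) →
  s = (-1) ^ (q + 1) * (((4 * q + 1).choose q : ℕ) : R p) *
    (1 - p * lift p ((H (ZMod p) (4 * q + 1) - 3 / 4 * H (ZMod p) (3 * q + 1) - 1 / 4 * H (ZMod p) q) / 2))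

/-- CN. The number of `i < N` with `z^i + z^(-i) = s` is `1 + e χ(s² - 4)`, where `N = p - e`, `e = ±1`.
Proof: for `x = z^i` one has `x^N = 1`, so `x^p = x^e`; hence `s = x + 1/x` satisfies `s^p = s` (so every `i` counts
for one `s`), and `s² - 4 = (x - 1/x)²`, `(x - 1/x)^p = e (x - 1/x)`, so `χ(s²-4) = (x - 1/x)^(p-1) = e` or `0`.
Upper bounds: the count is `≤ 2` always (`x` is a root of `X² - s X + 1` and `i ↦ z^i` is injective on `i < N`),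
`≤ 1` if `s² = 4` (double root), `0` if `χ(s²-4) = -e`. So count `≤ 1 + e χ(s²-4)`, and both sides have the same sum over
`s`: `N = p - e` and `p + e ∑ χ(s²-4) = p - e`. -/
def S_CN : Prop := ∀ (p N : ℕ) [Fact p.Prime] (K : Type) [Field K] [DecidableEq K] [Finite K] [Algebra (ZMod p) K] (z : K)
  (e : ℤ), p ≠ 2 → 0 < N → (e = 1 ∨ e = -1) → (p : ℤ) = N + e → IsPrimitiveRoot z N → ∀ s : ZMod p,
  ({i ∈ range N | z ^ i + z⁻¹ ^ i = algebraMap (ZMod p) K s}.card : ℤ) =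
    1 + e * quadraticChar (ZMod p) (s ^ 2 - 4)

/-- CH. For `x = z^i`, `s = x + 1/x` in the prime field and `s ≠ -2`: `χ(s + 2) = (-1)^i`.
(`s + 2 = (x+1)²/x`, `(s+2)^((p-1)/2) = (x+1)^(p-1) x^(-(p-1)/2) = x^(-N/2) = (-1)^i`, since
`(x+1)^p = x^e + 1`.) -/
def S_CH : Prop := ∀ (p N : ℕ) [Fact p.Prime] (K : Type) [Field K] [Finite K] [Algebra (ZMod p) K] (z : K)
  (e : ℤ), p ≠ 2 → 0 < N → 4 ∣ N → (e = 1 ∨ e = -1) → (p : ℤ) = N + e → IsPrimitiveRoot z N → ∀ (i : ℕ) (s : ZMod p),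
  z ^ i + z⁻¹ ^ i = algebraMap (ZMod p) K s → s ≠ -2 → quadraticChar (ZMod p) (s + 2) = (-1) ^ i

/-- LK. The character sum over the roots of unity is a sum over the prime field. `χ(-1) = e` in both cases, and `4 ∣ N`.
Proof: every `z^i + z^(-i)` lies in the prime field; `a i = s² - 2` for `s = z^i + z^(-i)`; the term with `s = -2` is
`i = N/2`, where `(-1)^i χ(a i) = χ(2)`; so `T = χ(2) + ∑_{s ≠ -2} χ(s+2) χ(s²-2) (1 + e χ(s²-4))`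
`= χ(2) + ∑_s χ(s+2) χ(s²-2) + e ∑_{s ≠ -2} χ(s-2) χ(s²-2)`, the last sum is
`∑_s χ(s-2) χ(s²-2) - χ(-4) χ(2) = χ(-1) (∑_s χ(s+2) χ(s²-2) - χ(2))` by `s ↦ -s`. -/
def S_LK : Prop := ∀ (p N : ℕ) [Fact p.Prime] (K : Type) [Field K] [DecidableEq K] [Finite K] [Algebra (ZMod p) K] (z : K)
  (a : ℕ → ZMod p) (e : ℤ), p ≠ 2 → 0 < N → 4 ∣ N → (e = 1 ∨ e = -1) → (p : ℤ) = N + e →
  quadraticChar (ZMod p) (-1) = e → Tor p N K z a →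
  (∀ s : ZMod p, ({i ∈ range N | z ^ i + z⁻¹ ^ i = algebraMap (ZMod p) K s}.card : ℤ) =
    1 + e * quadraticChar (ZMod p) (s ^ 2 - 4)) →
  (∀ (i : ℕ) (s : ZMod p), z ^ i + z⁻¹ ^ i = algebraMap (ZMod p) K s → s ≠ -2 →
    quadraticChar (ZMod p) (s + 2) = (-1) ^ i) →
  T p N a = 2 * ∑ s : ZMod p, quadraticChar (ZMod p) ((s + 2) * (s ^ 2 - 2))

/-- EE. `27 (s+2)(s²-2) = x³ - 30 x - 56` with `x = 3 s + 2`; so the two character sums agree up to sign. -/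
def S_EE : Prop := ∀ (p : ℕ) [Fact p.Prime], p ≠ 2 → p ≠ 3 →
  (∑ s : ZMod p, quadraticChar (ZMod p) ((s + 2) * (s ^ 2 - 2)) =
    ∑ x : ZMod p, quadraticChar (ZMod p) (x ^ 3 - 30 * x + 56)) ∨
  (∑ s : ZMod p, quadraticChar (ZMod p) ((s + 2) * (s ^ 2 - 2)) =
    -∑ x : ZMod p, quadraticChar (ZMod p) (x ^ 3 - 30 * x + 56))

/-- SG1. Case 1: `T = 4 t` with `t ≡ -(-1)^q` modulo `4`. Proof: `f i = (-1)^i χ(a i)` has period `2q` (`z^(4q) = -1`,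
`a (i + 2q) = - a i`, `χ(-1) = 1`) and is even, so `T = 4 ∑_{i<2q} f i` and
`∑_{i<2q} f i = f 0 + f q + 2 ∑_{0<i<q} f i`, `f 0 = χ(2) = 1`, `f q = 0`, `f i = ±1` for `0 < i < q`
(`a i = 0` iff `z^(4i) = -1`). So `t = 1 + 2 (q - 1 signs) ≡ 1 + 2 (q-1)`. -/
def S_SG1 : Prop := ∀ (p q : ℕ) [Fact p.Prime] (K : Type) [Field K] [Finite K] [Algebra (ZMod p) K] (z : K)
  (a : ℕ → ZMod p), p = 8 * q + 1 → 0 < q → Tor p (8 * q) K z a →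
  ∃ t : ℤ, T p (8 * q) a = 4 * t ∧ (4 : ℤ) ∣ t + (-1) ^ q

/-- SG3. Case 3: `T = 4 t` with `t ≡ -(-1)^q` modulo `4`. Proof: `f i = (-1)^i χ(a i)` has period `2q+1`
(`z^(4q+2) = -1`, `a (i + 2q+1) = - a i`, `χ(-1) = -1`) and is even, so `T = 4 ∑_{i<2q+1} f i` and
`∑_{i<2q+1} f i = f 0 + 2 ∑_{1≤i≤q} f i`, `f 0 = χ(2) = -1`, `f i = ±1` always. So `t ≡ -1 + 2 q`. -/
def S_SG3 : Prop := ∀ (p q : ℕ) [Fact p.Prime] (K : Type) [Field K] [Finite K] [Algebra (ZMod p) K] (z : K)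
  (a : ℕ → ZMod p), p = 8 * q + 3 → 0 < q → Tor p (8 * q + 4) K z a →
  ∃ t : ℤ, T p (8 * q + 4) a = 4 * t ∧ (4 : ℤ) ∣ t + (-1) ^ q

/-- generalized binomial coefficient of a rational number -/
def bQ (a : ℚ) (k : ℕ) : ℚ := (∏ i ∈ range k, (a - i)) / (k.factorial : ℚ)

/-- the sum of the problem -/
def SS (p : ℕ) : ℚ := ∑ k ∈ range p, bQ (-1 / 4) k * bQ (-1 / 2) k * 2 ^ k

/-- the rational number `r` is `p`-integral and its class modulo `p²` is `c` -/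
def IsRed (p : ℕ) (r : ℚ) (c : R p) : Prop := ∃ (n : ℤ) (d : ℕ), ¬ p ∣ d ∧ r = n / d ∧ (n : R p) = c * d

/-- RA. The rational sum and `TT`: `C(-1/4,k)` is `p`-integral with class `bR p x k`, `4 x = -1`, and
`C(-1/2,k) 2^k = C(2k,k) (-1/2)^k`. (`IsRed` is compatible with sums and products.) -/
def S_RA : Prop := ∀ (p : ℕ) [Fact p.Prime] (h x : R p), p ≠ 2 → 2 * h = -1 → 4 * x = -1 →
  IsRed p (SS p) (TT p h x)

/-- `u ≡ v` modulo `p^m`: `u - v = p^m n/d` with `p ∤ d` -/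
def Cong (p m : ℕ) (u v : ℚ) : Prop := ∃ (n : ℤ) (d : ℕ), ¬ p ∣ d ∧ u - v = (p : ℚ) ^ m * (n / d)

/-- RB. Equal classes modulo `p²`; a class that is `0` modulo `p`. -/
def S_RB : Prop := ∀ (p : ℕ) [Fact p.Prime] (u v : ℚ) (c : R p), IsRed p u c →
  (IsRed p v c → Cong p 2 u v) ∧ (red p c = 0 → Cong p 1 u 0)

/-- RP. Primes `1, 3` modulo `8` are `x² + 2 y²` with `x ≡ 1` modulo `4`. (`-2` is a square modulo `p`:
`ZMod.exists_sq_eq_neg_two_iff`; pigeonhole/Thue: `r ≡ w s` with `0 < |r|, |s| < √p`, so `r² + 2 s² = p` or `2p`, and in the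
second case `r` is even; `x` is odd since `p` is odd, change its sign.) -/
def S_RP : Prop := ∀ (p : ℕ) [Fact p.Prime], (p % 8 = 1 ∨ p % 8 = 3) →
  ∃ x y : ℤ, (p : ℤ) = x ^ 2 + 2 * y ^ 2 ∧ (4 : ℤ) ∣ x - 1

end Pool.Agent.Q267.E8
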