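import Pool.Agent.Q267.E8.Stm

set_option autoImplicit false

/-!
# Project E8, second part: the supercongruence of MP_a989c0_nt (Q1): statements

Here `m = (p-1)/2`, `e = 1 + √2`, `e' = 1 - √2`, `λ = -2 e`, `λ' = -2 e'`; notation of `Stm.lean`.
Every statement was checked numerically.
-/

namespace Pool.Agent.Q267.E8

open Finset Pool.Agent.Q267.CDE Pool.Agent.Q267.MW

section defs

variable {S : Type} [CommRing S]

/-- the Legendre polynomial `P_m(1 - 2z)` -/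
def Ff (m : ℕ) (z : S) : S :=
  ∑ k ∈ range (m + 1), (-1) ^ k * ((m.choose k : ℕ) : S) * (((m + k).choose k : ℕ) : S) * z ^ k

/-- squares of binomial coefficients -/
def Kf (m : ℕ) (z : S) : S := ∑ k ∈ range (m + 1), ((m.choose k : ℕ) : S) ^ 2 * z ^ k

/-- the reversed Legendre polynomial -/
def Kr (m : ℕ) (z : S) : S :=
  ∑ k ∈ range (m + 1), (-1) ^ k * ((m.choose k : ℕ) : S) * (((m + k).choose k : ℕ) : S) * z ^ (m - k)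

/-- `∑ C(m,k) C(2k,k) w^k` -/
def Ef (m : ℕ) (w : S) : S := ∑ k ∈ range (m + 1), ((m.choose k : ℕ) : S) * ((k.centralBinom : ℕ) : S) * w ^ k

/-- `∑ C(m,2j) C(2j,j) r^(m-2j) w^j` -/
def Pf (m : ℕ) (r w : S) : S :=
  ∑ j ∈ range (m / 2 + 1), ((m.choose (2 * j) : ℕ) : S) * ((j.centralBinom : ℕ) : S) * r ^ (m - 2 * j) * w ^ j

end defs

/-- K1. `∑ C(m,k)² z^k = ∑ C(m,k) C(m+k,k) z^k (1-z)^(m-k)` (polynomial identity; compare the coefficients of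
`z^n`: Vandermonde; perhaps in the library near `legendre`), rewritten with `v = 1/(1-z)`. -/
def S_K1 : Prop := ∀ (S : Type) [CommRing S] (m : ℕ) (z v : S), (1 - z) * v = 1 →
  Kf m z = (1 - z) ^ m * Ff m (-(z * v))

/-- K2. `∑ C(m,k)² (1-z)^k = (-1)^m ∑ (-1)^k C(m,k) C(m+k,k) z^(m-k)`. (From the identity in K1 with `1 - z`
in place of `z`: the right side is `∑ C(m,k) C(m+k,k) (1-z)^k z^(m-k)`; or compare coefficients,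
`∑_k C(m,k)² C(k,n) = C(m,n) C(2m-n,m)`.) -/
def S_K2 : Prop := ∀ (S : Type) [CommRing S] (m : ℕ) (z : S), Kf m (1 - z) = (-1) ^ m * Kr m z

/-- LD (Landen). `∑ C(m,k)² x^(2k) = ∑ C(m,k) C(2k,k) (-x)^k (1+x)^(2m-2k)` in `ℤ[x]`. Proof: both sides are the constant
term in `t` of `((1 + x t)(1 + x/t))^m = ((1+x)² - x (2 - t - 1/t))^m` and `2 - t - 1/t = -(1 - t)²/t` has the constant
terms `∑_k C(m,k) (1+x)^(2m-2k) (-x)^k CT((2 - t - 1/t)^k)`, `CT((2 - t - 1/t)^k) = C(2k,k)`.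
Here `y = 1/(1+x)²`. -/
def S_LD : Prop := ∀ (S : Type) [CommRing S] (m : ℕ) (x y : S), (1 + x) ^ 2 * y = 1 →
  Kf m (x ^ 2) = (1 + x) ^ (2 * m) * Ef m (-(x * y))

/-- EV. `∑ C(m,k) C(2k,k) w^k = ∑ C(m,2j) C(2j,j) (1+2w)^(m-2j) w^(2j)`: the constant term in `t` of
`(1 + w (t + 1/t + 2))^m = ((1 + 2w) + w (t + 1/t))^m`. -/
def S_EV : Prop := ∀ (S : Type) [CommRing S] (m : ℕ) (w : S), Ef m w = Pf m (1 + 2 * w) (w ^ 2)

/-- EK. `2 E = F + K` modulo `p²`: for `k ≤ m`,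
`2 C(m,k) C(2k,k) = (-4)^k ((-1)^k C(m,k) C(m+k,k) + C(m,k)²)` in `ℤ/p²`.
(`C(2k,k)/(-4)^k = (-1/2)(-3/2)...(-1/2-k+1)/k!`, `C(m,k) = ∏ (-1/2 + p/2 - i)/k!`,
`(-1)^k C(m+k,k) = ∏ (-1/2 - p/2 - i)/k!`; induction on `k`.) The sum over `k` then gives the statement. -/
def S_EK : Prop := ∀ (p m : ℕ) [Fact p.Prime] (S : Type) [CommRing S] [Algebra (R p) S] (z w : S), p = 2 * m + 1 →
  -4 * w = z → 2 * Ef m w = Ff m z + Kf m z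

/-- CB. `C(2k,k)² = 16^k (-1)^k C(m,k) C(m+k,k)` modulo `p²` for `k ≤ m` (exactly: `4^k (-1)^k k!² C(m,k) C(m+k,k) =
∏_{i<k} ((2i+1)² - p²)`; compare `dl_R` in `Seven/Split.lean`), and `C(2k,k)² = 0` modulo `p²` for `m < k < p`. -/
def S_CB : Prop := ∀ (p m k : ℕ) [Fact p.Prime], p = 2 * m + 1 →
  (k ≤ m → ((k.centralBinom : ℕ) : R p) ^ 2 = 16 ^ k * ((-1) ^ k * ((m.choose k : ℕ) : R p) *
    (((m + k).choose k : ℕ) : R p))) ∧ (m < k → k < p → ((k.centralBinom : ℕ) : R p) ^ 2 = 0)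

/-- LG. The identity `∑_{k<n} F_k/(n-k) = 4 F_n O_n` with `F_k = (C(2k,k)/4^k)²`, `O_n = ∑_{j<n} 1/(2j+1)`, in a form
for fields in which the numbers up to `n` and the odd numbers up to `2n-1` are not zero.
Proof by induction on `n`: with `y_n = ½ ∑_{k<n} F_k/(n-k)` one has `(n+1)² y_{n+1} - (n+½)² y_n = (n+½) F_n`, because
`(n+1)²/(n+1-k) = (n+1+k) + k²/(n+1-k)`, `(n+½)²/(n-k) = (n+k+1) + (k+½)²/(n-k)` and
`F_{k+1} (k+1)² = F_k (k+½)²`; and `2 F_n O_n` satisfies the same recurrence. -/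
def S_LG : Prop := ∀ (K : Type) [Field K] (F : ℕ → K) (n : ℕ), (2 : K) ≠ 0 → F 0 = 1 →
  (∀ k, k < n → 4 * ((k : K) + 1) ^ 2 * F (k + 1) = (2 * k + 1) ^ 2 * F k) →
  (∀ k, k < n → (k : K) + 1 ≠ 0) → (∀ k, k < n → 2 * (k : K) + 1 ≠ 0) →
  ∑ k ∈ range n, F k * ((n : K) - k)⁻¹ = 4 * F n * ∑ j ∈ range n, (2 * (j : K) + 1)⁻¹

/-- LM. The same sum is `0` for `m < n < p`, `F_k = C(m,k)²` in `ZMod p` (`p = 2m+1`).
Proof: as LG, the recurrence `(n+1)² y_{n+1} - (n+½)² y_n = (n+½) F_n` holds for all `n < p - 1`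
(now `F_k = 0` for `k > m`, `4 (k+1)² F_{k+1} = (2k+1)² F_k` for all `k < p-1`; at `k = m` the factor `2m+1 = 0`), at `n = m`
`n + ½ = 0`, so `y_{m+1} = 0`, and then `y_n = 0` for all `m < n < p`. -/
def S_LM : Prop := ∀ (p m n : ℕ) [Fact p.Prime], p = 2 * m + 1 → m < n → n < p →
  ∑ k ∈ range (m + 1), ((m.choose k : ℕ) : ZMod p) ^ 2 * ((n : ZMod p) - k)⁻¹ = 0

/-- DF. `(-1)^k C(m,k) C(m+k,k) = C(m,k)² + p · 2 O_k C(m,k)²` modulo `p²`, `O_k = ∑_{j<k} 1/(2j+1)`, `k ≤ m`.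
(`(-1)^k C(m+k,k)/C(m,k) = ∏_{i<k} (-(m+1+i))/(m-i) = ∏ (2i+1+p)/(2i+1-p)`.) -/
def S_DF : Prop := ∀ (p m k : ℕ) [Fact p.Prime], p = 2 * m + 1 → k ≤ m →
  (-1) ^ k * ((m.choose k : ℕ) : R p) * (((m + k).choose k : ℕ) : R p) = ((m.choose k : ℕ) : R p) ^ 2 +
    p * lift p (2 * (∑ j ∈ range k, (2 * (j : ZMod p) + 1)⁻¹) * ((m.choose k : ℕ) : ZMod p) ^ 2)

/-- II. `(1 + z^p + (1-z)^p) F(z) = 2 (1 - z^p) K(z) + 2 z^p K*(z)` modulo `p²`, `K* = Kr`.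
Proof: write `F = K + p D`, `Kr = K + p D*` with `D = ∑ 2 O_k C(m,k)² z^k` and `D* = ∑ 2 O_{m-k} C(m,k)² z^k` (DF), and
`1 + z^p + (1-z)^p = 2 - p ∑_{i=1}^{p-1} z^i/i` (see `choose_p`, `frob` in `CDE/Jac.lean`; `p` odd). So the claim is
`2 D - (∑ z^i/i) K = 2 z^p D*` modulo `p`; compare the coefficients of `z^n`: for `n ≤ m` this is LG with
`F k = C(m,k)²` in `ZMod p` (`4 (k+1)² C(m,k+1)² = 4 (m-k)² C(m,k)² = (2k+1)² C(m,k)²`), for `m < n < p` it is LM, and for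
`n = p + j` the sum is `∑_{k=j+1}^m C(m,k)²/(p+j-k) = -∑ C(m,k)²/(k-j)`, reflect `k ↦ m-k`, `j ↦ m-j`: LG again. -/
def S_II : Prop := ∀ (p m : ℕ) [Fact p.Prime] (S : Type) [CommRing S] [Algebra (R p) S] (z : S), p = 2 * m + 1 → 3 < p →
  (1 + z ^ p + (1 - z) ^ p) * Ff m z = 2 * (1 - z ^ p) * Kf m z + 2 * z ^ p * Kr m z

/-- `∑_{k<p} (-1)^k C(x,k)²` -/
noncomputable def T2 (p : ℕ) (x : R p) : R p := ∑ k ∈ range p, (-1) ^ k * bR p x k ^ 2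

/-- RT. `(x+2) T2(x+2) = -4 (x+1) T2(x)` if `x` is not `-1, -2` modulo `p`. Proof (Zeilberger): multiply by `x + 1`;
with `X = x + 2`, `g(k) = -2k² + (6X-2) k - 5X² + 3X`, for `1 ≤ K ≤ p`
`(x+1) ∑_{k<K} ((x+2) (-1)^k C(x+2,k)² + 4 (x+1) (-1)^k C(x,k)²) = (-1)^K g(K) C(x+1,K-1)²`, induction on `K` (the step
with `A = C(x+1,k)`, `B = C(x+1,k-1)`: `C(x+2,k) = A + B`, `(x+1) C(x,k) = (x+1-k) A`, `k A = (x+2-k) B`); for `K = p` the right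
side is `0` modulo `p²` since `p ∣ C(x+1,p-1)`. Compare the proof of `recT` (Pool.Agent.Q156.E8.REC). -/
def S_RT : Prop := ∀ (p : ℕ) [Fact p.Prime] (x : R p), p ≠ 2 → red p x ≠ -1 → red p x ≠ -2 →
  (x + 2) * T2 p (x + 2) = -4 * (x + 1) * T2 p x

/-- C2. Closed form `T2(p c + 2 l) = (-1)^l C(2l,l) (1 + p c (H_{2l} - H_l))` for `2l < p`; `T2(p c) = 1`.
Compare the proof of `cl` (Pool.Agent.Q149.E8.CL). -/
def S_C2 : Prop := ∀ (p : ℕ) [Fact p.Prime] (c : R p) (l : ℕ), p ≠ 2 → 2 * l < p →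
  T2 p (p * c + 2 * l) = (-1) ^ l * (((2 * l).choose l : ℕ) : R p) *
    (1 + p * c * lift p (H (ZMod p) (2 * l) - H (ZMod p) l))

/-- PG. The symmetric product is `T2` modulo `p²`: `∑_{k≤n} (-1)^k C(n,k) C(y,k) = T2(x)` if `n = x + p c`,
`y = x - p c` (`C(x + pc, k) C(x - pc, k) = C(x,k)²` modulo `p²`; `C(n,k) = 0` for `k > n`; `n < p`). -/
def S_PG : Prop := ∀ (p n : ℕ) [Fact p.Prime] (x y c : R p), n < p → (n : R p) = x + p * c → y = x - p * c →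
  ∑ k ∈ range (n + 1), (-1) ^ k * ((n.choose k : ℕ) : R p) * bR p y k = T2 p x

/-- PE. (even case) with `2 h = 1`: `∑_j C(2n,2j) C(2j,j) 4^(-j) 2^(n-j) = ∑_k (-1)^k C(n,k) C(-n-½, k)`, `2 n < p`.
Proof: `2^(n-j) = ∑_k C(n-j,k-j)`, `C(2n,2j) C(2j,j) 4^(-j) C(n-j,k-j) = C(n,k) C(k,j) C(n-½,j)`
(`(2n)(2n-1)...(2n-2j+1) = 4^j n...(n-j+1) (n-½)...(n-½-j+1)`), Vandermonde `∑_j C(k,j) C(n-½,j) = C(n+k-½,k)
= (-1)^k C(-n-½,k)`. -/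
def S_PE : Prop := ∀ (p n : ℕ) [Fact p.Prime] (h : R p), 2 * h = 1 → 2 * n < p →
  ∑ j ∈ range (n + 1), (((2 * n).choose (2 * j) : ℕ) : R p) * ((j.centralBinom : ℕ) : R p) * (h ^ 2) ^ j * 2 ^ (n - j) =
    ∑ k ∈ range (n + 1), (-1) ^ k * ((n.choose k : ℕ) : R p) * bR p (-n - h) k

/-- PO. (odd case) with `2 h = 1`: `∑_j C(2n+1,2j) C(2j,j) 4^(-j) 2^(n-j) = ∑_k (-1)^k C(n,k) C(-n-3/2, k)`, `2 n + 1 < p`.
Proof as PE with `(2n+1)(2n)...(2n-2j+2) = 4^j n...(n-j+1) (n+½)...(n+½-j+1)`. -/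
def S_PO : Prop := ∀ (p n : ℕ) [Fact p.Prime] (h : R p), 2 * h = 1 → 2 * n + 1 < p →
  ∑ j ∈ range (n + 1), (((2 * n + 1).choose (2 * j) : ℕ) : R p) * ((j.centralBinom : ℕ) : R p) * (h ^ 2) ^ j *
    2 ^ (n - j) = ∑ k ∈ range (n + 1), (-1) ^ k * ((n.choose k : ℕ) : R p) * bR p (-n - 3 * h) k

/-- GV. The value: `G = 4^q u (1 - p Q/4)` where `G = (-1)^q C(2q,q) (1 - p/4 (H_{2q} - H_q))` and
`u = C(m,q) (1 - p (H_m - 3/4 H_{m-q} - 1/4 H_q)/2)`; both cases at once (`m = 4q` or `m = 4q+1`), from DU with `l = q`,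
HD with `l = q`, HM, HQ: `H_m = -2Q`, `H_{2q} = -3Q`, `H_{m-q} = -8Q - H_q`. -/
def S_GV : Prop := ∀ (p q m : ℕ) [Fact p.Prime] (x : R p) (Q : ZMod p), p = 2 * m + 1 → 3 < p → q ≤ m →
  4 * x = -1 → H (ZMod p) m = -2 * Q → H (ZMod p) (2 * q) = -3 * Q →
  2 * H (ZMod p) (2 * q) - H (ZMod p) q = H (ZMod p) (m - q) - H (ZMod p) m →
  (((2 * q).choose q : ℕ) : R p) = (-4) ^ q * ((m.choose q : ℕ) : R p) *
    (1 - p * lift p ((H (ZMod p) m - H (ZMod p) (m - q)) / 2)) →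
  (-1) ^ q * (((2 * q).choose q : ℕ) : R p) * (1 + p * x * lift p (H (ZMod p) (2 * q) - H (ZMod p) q)) =
    4 ^ q * (((m.choose q : ℕ) : R p) *
      (1 - p * lift p ((H (ZMod p) m - 3 / 4 * H (ZMod p) (m - q) - 1 / 4 * H (ZMod p) q) / 2))) *
      (1 - p * lift p (Q / 4))

/-- SN1. `2^(2q) (1+r)^(4q) = (-1)^q` in a field of characteristic `p = 8q+1` where `r² = 2`. Proof: let `ζ` be a root of
`X² - r X + 1` (in an algebraic closure), so `r = ζ + 1/ζ`, `ζ^4 = -1`, `r (1 + r) = (1+ζ)²/ζ`; `ζ^p = ζ`, so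
`(r(1+r))^(4q) = (1+ζ)^(8q) ζ^(-4q) = (-1)^q` (`(1+ζ)^p = 1 + ζ`), and `r^(4q) = 2^(2q)`. -/
def S_SN1 : Prop := ∀ (p q : ℕ) [Fact p.Prime] (K : Type) [Field K] [CharP K p] (r : K), p = 8 * q + 1 → r ^ 2 = 2 →
  2 ^ (2 * q) * (1 + r) ^ (4 * q) = (-1) ^ q

/-- SN3. `2^(2q) r (1+r)^(4q+2) = (-1)^q` in a field of characteristic `p = 8q+3` where `r² = 2`. Proof: `ζ` as in SN1, now
`ζ^p = ζ^3`, `(1+ζ)^(p+1) = (1+ζ^3)(1+ζ) = ζ + ζ^3 = ζ² r`, `ζ^(-(4q+2)) = (-1)^q ζ^(-2)`, so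
`(r(1+r))^(4q+2) = (-1)^q r`, and `r^(4q+2) = 2^(2q+1)`. -/
def S_SN3 : Prop := ∀ (p q : ℕ) [Fact p.Prime] (K : Type) [Field K] [CharP K p] (r : K), p = 8 * q + 3 → r ^ 2 = 2 →
  2 ^ (2 * q) * (r * (1 + r) ^ (4 * q + 2)) = (-1) ^ q

/-- the companion Pell numbers -/
def Qn : ℕ → ℤ
  | 0 => 2
  | 1 => 2
  | n + 2 => 2 * Qn (n + 1) + Qn n

/-- the sum of the problem -/
def S0 (p : ℕ) : ℚ := ∑ k ∈ range p, (Qn k : ℚ) / (-8) ^ k * ((2 * k).choose k : ℚ) ^ 2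

/-- RS. The class of `S0` modulo `p²` is `c` as soon as its image in an algebra `S` (in which `ℤ/p²` embeds) with `r² = 2`
is `F(-2(1+r)) + F(-2(1-r))`: `Q_k = (1+r)^k + (1-r)^k`, CB. -/
def S_RS : Prop := ∀ (p m : ℕ) [Fact p.Prime] (S : Type) [CommRing S] [Algebra (R p) S] (r : S) (c : R p),
  p = 2 * m + 1 → r ^ 2 = 2 → Function.Injective (algebraMap (R p) S) →
  algebraMap (R p) S c = Ff m (-2 * (1 + r)) + Ff m (-2 * (1 - r)) → IsRed p (S0 p) c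

/-- LF1. Case 1, the last step, in `R p` (`p = 8q+1`, `m = 4q`, `r² = 2`, `e = 1+r`, `e' = 1-r`): from
`K(λ) = e^(2m) F(λ')` (K1), `2 E = F(λ) + K(λ)` (EK), `E = e^m G` (EV, PE, PG) and `G = 4^q u (1 - p Q/4)` (GV) and
`e^m 4^q = (-1)^q` modulo `p` (SN1): `F(λ) + F(λ') = 2 (-1)^q u`.
Proof: `e^(2m) = 1 + p y` for some `y` (Fermat), `a + (1 + p y) b = 2 e^m G` with `a = F(λ)`, `b = F(λ')`, the conjugate
equation `b + (1 - p y) a = 2 e'^m G`, `e^m e'^m = 1`; modulo `p`, `a = b`?? is not needed: `a + b = 2 e^m G - p y b` and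
modulo `p`: `b = e^m G` is given as the hypothesis `hb`; so `a + b = 2 e^m G (1 - p y/2)`, and
`(e^m 4^q)² = (1 + p y) 2^m`, `2^m = 1 + p Q/2`, so `e^m 4^q = (-1)^q (1 + p y/2 + p Q/4)`. -/
def S_LF1 : Prop := ∀ (p q : ℕ) [Fact p.Prime] (r a b u G h : R p) (Q : ZMod p), p = 8 * q + 1 → r ^ 2 = 2 →
  2 * h = 1 → (2 : R p) ^ (p - 1) = 1 + p * lift p Q →
  a + (1 + r) ^ (8 * q) * b = 2 * ((1 + r) ^ (4 * q) * G) →
  red p b = red p ((1 + r) ^ (4 * q) * G) →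
  G = 4 ^ q * u * (1 - p * lift p (Q / 4)) →
  red p (2 ^ (2 * q) * (1 + r) ^ (4 * q)) = (-1) ^ q →
  a + b = 2 * ((-1) ^ q * u)

/-- RB1. Case 1: `b = F(λ')` is `e^m G` modulo `p`: from `a + e^(2m) b = 2 e^m G`, and `K(λ) = F(λ)` modulo `p` coefficientwise,
`K(λ) = e^(2m) b`, `e^(2m) = 1` modulo `p`. -/
def S_RB1 : Prop := ∀ (p q : ℕ) [Fact p.Prime] (r G : R p), p = 8 * q + 1 → r ^ 2 = 2 →
  Kf (4 * q) (-2 * (1 + r)) = (1 + r) ^ (8 * q) * Ff (4 * q) (-2 * (1 - r)) →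
  2 * ((1 + r) ^ (4 * q) * G) = Ff (4 * q) (-2 * (1 + r)) + Kf (4 * q) (-2 * (1 + r)) →
  red p (Ff (4 * q) (-2 * (1 - r))) = red p ((1 + r) ^ (4 * q) * G)

/-- EJ. Case 3, the key: `F(λ') = -e² F(λ)` modulo `p²`, in an `R p`-algebra `S` with `r² = 2`, `p = 8q+3`, `m = 4q+1`,
`e = 1+r`, `e' = 1-r`, `a = F(-2e)`, `b = F(-2e')`, `k = K(-2e') = e'^(2m) a` (K1),
`s = Kr(-2e')`, `2^m E(-2e') = (-1)^m s` (LD at `x = -e'`, `1 + x = r`, and K2, EV not needed), `2 E(-2e') = b + k` (EK), so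
`2^m (b + k) = -2 s`; (II) at `z = -2e'`: `(1 + z^p + (1-z)^p) b = 2 (1 - z^p) k + 2 z^p s`.
Proof: `e'^p = e + p y` for some `y` in `S`, more precisely write `e'^p = e (1 - p η)` with `η ∈ S`; then
`2^m = -(1 + p Q/2)`, `z^p = -2 (1 + pQ) e (1 - pη)`, `(1-z)^p = e'^(2p) = e² (1 - 2pη)`, `e'^(2m) = e'^(p-1) = -e² (1 - pη)`
(`e' · (-e) = 1`), `s = ½ (1 + p Q/2) (b + k)`, and (II) becomes
`[2r - 2pηe + pQ] e b = -[2r + pQ - 2pη - 2rpη] e · e² a`, where `2pη + 2rpη = 2pηe`, and the bracket is a unit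
(`2r` is a unit, `p² = 0`). -/
def S_EJ : Prop := ∀ (p q : ℕ) [Fact p.Prime] (S : Type) [CommRing S] [Algebra (R p) S] (r a b k s : S) (Q : ZMod p),
  p = 8 * q + 3 → r ^ 2 = 2 → (2 : R p) ^ (p - 1) = 1 + p * lift p Q →
  k = (1 - r) ^ (2 * (4 * q + 1)) * a → 2 ^ (4 * q + 1) * (b + k) = -2 * s →
  (1 + (-2 * (1 - r)) ^ p + (1 - (-2 * (1 - r))) ^ p) * b =
    2 * (1 - (-2 * (1 - r)) ^ p) * k + 2 * (-2 * (1 - r)) ^ p * s →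
  b = -(1 + r) ^ 2 * a

/-- LF3. Case 3, the last step, in an `R p`-algebra `S`, with a field `K` of characteristic `p` and a surjection
`ρ : S → K` whose kernel is `p S` (`hK`): from `a + e^(2m) b = 2 e^m r G`, `b = -e² a`, `G = 4^q u (1 - p Q/4)` and
`2^(2q) r e^(4q+2) = (-1)^q` in `K`: `a + b = -2 (-1)^q u`.
Proof: `e^(p) = e' (1 + p η)`, `e^(2m) = e^(p-1) = -e'² (1 + pη)`, so `e^(2m) b = (1 + pη) a` (`e e' = -1`),
`a (2 + pη) = 2 e^m r G`, `a + b = a (1 - e²) = -2 e a`, and `κ = r e^(m+1) 4^q` satisfies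
`κ² = 2 e^(p+1) 4^(2q) = -2 (1 + pη) 2^(4q) = (1 + pQ/2)(1 + pη)` (`2^m = -(1 + pQ/2)`), `κ = (-1)^q` modulo `p`, so
`κ = (-1)^q (1 + pη/2 + pQ/4)`; hence `a + b = -2 κ u (1 - pη/2) (1 - pQ/4) = -2 (-1)^q u`. -/
def S_LF3 : Prop := ∀ (p q : ℕ) [Fact p.Prime] (S : Type) [CommRing S] [Algebra (R p) S] (K : Type) [Field K]
  [CharP K p] (ρ : S →+* K) (r a b : S) (u G : R p) (Q : ZMod p),
  (∀ x : S, ρ x = 0 → ∃ y : S, x = (p : S) * y) →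
  p = 8 * q + 3 → r ^ 2 = 2 → (2 : R p) ^ (p - 1) = 1 + p * lift p Q →
  a + (1 + r) ^ (2 * (4 * q + 1)) * b = 2 * ((1 + r) ^ (4 * q + 1) * (r * algebraMap (R p) S G)) →
  b = -(1 + r) ^ 2 * a →
  G = 4 ^ q * u * (1 - p * lift p (Q / 4)) →
  ρ (2 ^ (2 * q) * (r * (1 + r) ^ (4 * q + 2))) = (-1) ^ q →
  a + b = algebraMap (R p) S (2 * ((-1) ^ (q + 1) * u))

/-- AX. Case 3: the algebra: `S = (ℤ/p²)[√2]`, `K = 𝔽_p[√2]` (a field since `2` is not a square modulo `p = 8q+3`).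
(E.g. `QuadraticAlgebra (R p) 2 0`, or `AdjoinRoot`; `K` a quadratic extension field, or `GaloisField p 2` with a root of
`X² - 2`, and `ρ` given by `a + b r ↦ red a + (red b) r'`.) -/
def S_AX : Prop := ∀ (p q : ℕ) [Fact p.Prime], p = 8 * q + 3 →
  ∃ (S : Type) (_ : CommRing S) (_ : Algebra (R p) S) (K : Type) (_ : Field K) (_ : CharP K p) (ρ : S →+* K) (r : S),
    r ^ 2 = 2 ∧ Function.Injective (algebraMap (R p) S) ∧ ∀ x : S, ρ x = 0 → ∃ y : S, x = (p : S) * y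

/-- PV1. Even case, `w = e/2` in EV: `1 + 2w = 1 + e = r e`, `(r e)^(2n-2j) (e²/4)^j = e^(2n) 2^(n-j) 4^(-j)`. -/
def S_PV1 : Prop := ∀ (p n : ℕ) [Fact p.Prime] (S : Type) [CommRing S] [Algebra (R p) S] (r : S) (h : R p),
  r ^ 2 = 2 → 2 * h = 1 → Ef (2 * n) ((1 + r) * algebraMap (R p) S h) = (1 + r) ^ (2 * n) * algebraMap (R p) S
    (∑ j ∈ range (n + 1), (((2 * n).choose (2 * j) : ℕ) : R p) * ((j.centralBinom : ℕ) : R p) * (h ^ 2) ^ j *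
      2 ^ (n - j))

/-- PV3. Odd case, `w = e/2` in EV: `(r e)^(2n+1-2j) (e²/4)^j = e^(2n+1) r 2^(n-j) 4^(-j)`. -/
def S_PV3 : Prop := ∀ (p n : ℕ) [Fact p.Prime] (S : Type) [CommRing S] [Algebra (R p) S] (r : S) (h : R p),
  r ^ 2 = 2 → 2 * h = 1 → Ef (2 * n + 1) ((1 + r) * algebraMap (R p) S h) = (1 + r) ^ (2 * n + 1) *
    (r * algebraMap (R p) S (∑ j ∈ range (n + 1), (((2 * n + 1).choose (2 * j) : ℕ) : R p) *
      ((j.centralBinom : ℕ) : R p) * (h ^ 2) ^ j * 2 ^ (n - j)))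

end Pool.Agent.Q267.E8
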