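import Pool.Agent.Q267.E8.Stm

set_option autoImplicit false

/-!
# The character sum modulo `p²`
-/

namespace Pool.Agent.Q267.E8

open Finset Pool.Agent.Q267.CDE Pool.Agent.Q267.MW

theorem exa : S_EXA := by
  intro p q _ hpq
  obtain ⟨g, hg, hg0⟩ := exists_gen p
  refine ⟨g, fun i => g ^ (2 * i) + g⁻¹ ^ (2 * i), ?_, fun i => rfl⟩
  have e : 8 * q = orderOf g := by omega
  rw [e]
  exact IsPrimitiveRoot.orderOf g

/-- the Teichmueller lift reduces to its argument -/
theorem cc_teich (p : ℕ) [Fact p.Prime] (K : Type) [Field K] [CharP K p] (x : K) :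
    WittVector.constantCoeff (WittVector.teichmuller p x) = x := by
  change (WittVector.teichmuller p x).coeff 0 = x
  rw [WittVector.teichmuller_coeff_zero]

theorem teich (hWA : S_WA) (hWB : S_WB) (hWC : S_WC) (p m N : ℕ) [Fact p.Prime] (K : Type) [Field K]
    [Finite K] [Algebra (ZMod p) K] (z : K) (a : ℕ → ZMod p) (hpm : p = 2 * m + 1) (hm : 2 ≤ m)
    (hN : 0 < N) (h4 : 4 ∣ N) (h : Tor p N K z a) :
    (p : ℤ) ^ 2 ∣ T p N a - N * ((1 - m) * A N m + m * A N (3 * m)) := by
  have hc : CharP K p := charP_of_injective_algebraMap (algebraMap (ZMod p) K).injective p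
  apply hWC p K
  set w : WittVector p K := WittVector.teichmuller p z with hw
  have hinj : Function.Injective (WittVector.teichmuller p : K →* WittVector p K) := by
    intro x y hxy
    have := congrArg WittVector.constantCoeff hxy
    rwa [cc_teich, cc_teich] at this
  have hprim : IsPrimitiveRoot w N := h.prim.map_of_injective hinj
  have hz : z ^ (N - 1) = z⁻¹ := by
    have hz0 : z ≠ 0 := h.prim.ne_zero (by omega)
    have h1 : z * z ^ (N - 1) = 1 := by
      rw [← pow_succ', Nat.sub_add_cancel hN, h.prim.pow_eq_one]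
    exact eq_inv_of_mul_eq_one_right h1
  set u : ℕ → WittVector p K := fun i => w ^ (2 * i) + (w ^ (N - 1)) ^ (2 * i) with hu
  have hcu : ∀ i, WittVector.constantCoeff (u i) = algebraMap (ZMod p) K (a i) := by
    intro i
    rw [h.val i, hu]
    simp only [map_add, map_pow, hw]
    rw [cc_teich, hz]
  have hB : ∀ i, ((p : WittVector p K)) ^ 2 ∣ (-1) ^ i * (((quadraticChar (ZMod p) (a i) : ℤ) : WittVector p K) -
      ((1 - (m : WittVector p K)) * u i ^ m + (m : WittVector p K) * u i ^ (3 * m))) := fun i =>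
    (hWB p m K (a i) (u i) hpm hm (hcu i)).mul_left _
  have hS := Finset.dvd_sum (s := range N) (fun i _ => hB i)
  have e1 := hWA (WittVector p K) w N m hN h4 hprim
  have e2 := hWA (WittVector p K) w N (3 * m) hN h4 hprim
  have e3 : ∑ i ∈ range N, (-1) ^ i * (((quadraticChar (ZMod p) (a i) : ℤ) : WittVector p K) -
      ((1 - (m : WittVector p K)) * u i ^ m + (m : WittVector p K) * u i ^ (3 * m))) =
      ((T p N a - N * ((1 - m) * A N m + m * A N (3 * m)) : ℤ) : WittVector p K) := by
    unfold T
    push_cast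
    have e4 : (N : WittVector p K) * ((1 - (m : WittVector p K)) * ((A N m : ℤ) : WittVector p K) +
        (m : WittVector p K) * ((A N (3 * m) : ℤ) : WittVector p K)) =
        (1 - (m : WittVector p K)) * ∑ i ∈ range N, (-1) ^ i * u i ^ m +
        (m : WittVector p K) * ∑ i ∈ range N, (-1) ^ i * u i ^ (3 * m) := by
      rw [hu]
      simp only []
      rw [e1, e2]
      ring
    rw [e4, mul_sum, mul_sum, ← sum_add_distrib, ← sum_sub_distrib]
    refine sum_congr rfl fun i _ => ?_
    ring
  rw [e3] at hS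
  exact hS

end Pool.Agent.Q267.E8
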